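import Mathlib
import Pool.Agent.H926.C.Mot
import Pool.Agent.H926.C.Q0
import Pool.Agent.H926.C.Div

/-!
# Homomorphisms of motives in the tensor categories generated by abelian varieties

Let `X` be an abelian variety of any dimension over a number field `F ⊂ ℂ`. We assume that there is a
complex abelian variety `A` of dimension at most seven such that each simple factor of `X` over `ℂ` (that
is, each simple abelian variety with a homomorphism to `X` with finite kernel) is a factor of `A`, and
that no simple factor of `A` of dimension four or six has `ℤ` as its endomorphism ring. For instance `X`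
is a form of a power of `A`, or a product of powers of abelian subvarieties of `A`.

The objects of the tensor category of pure motives generated by `h^1(X)` and the Tate motive are the
direct summands of sums of the motives `h^1(X)^{⊗ a}(r)`. The `p`-adic realization of `h^1(X)^{⊗ a}` is the
space of the multilinear forms in `a` variables on the rational Tate module `V = ℚ_p ⊗ H_1(X, ℚ)`, with the
action `(g φ)(v) = φ(ρ(g)⁻¹ v)` of the Galois group. By the weights, the only twists with non-zero
equivariant maps (over a finite extension of `F`) are the maps `h^1(X)^{⊗ a} → h^1(X)^{⊗ b}(r)`,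
`r = (b - a) / 2`. The cohomology classes on `X ^ (a + b)` give such maps: let `ω` be the Weil pairing given
by a polarization `E`; the forms `∏ i, ω (u i, ·)` span the realization of `h^1(X)^{⊗ a}`, and the class `f`
of degree `a + b` (an alternating form in `a + b` variables on `H_1(X ^ (a + b), ℚ)`) gives the map

`∏ i, ω (u i, ·) ↦ (w ↦ f (u 1, ..., u a, w 1, ..., w b))`,

where the `k`-th argument of `f` is in the `k`-th copy of `H_1(X)` (the Künneth component of `f` in
`H^1(X) ⊗ ... ⊗ H^1(X)`). If `f` is algebraic, this is a morphism of motives, since the Künneth components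
and the inverse of the isomorphism `h_1(X) → h^1(X)(1)` given by `E` are algebraic.

**Theorem.** Each `ℚ_p`-linear map from the realization of `h^1(X)^{⊗ a}` to the realization of
`h^1(X)^{⊗ b}(r)`, `r = (b - a) / 2`, which commutes with an open subgroup of the Galois group, is a
`ℚ_p`-linear combination of maps given by classes in the ring generated by divisors and pull-backs of Weil
classes. If each simple factor of `A` has real multiplication or is a factor of an abelian variety `A₀` of
dimension at most five (with any endomorphism algebra), for instance if `A` has dimension at most five,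
the Weil classes for imaginary quadratic fields on abelian fourfolds and on abelian sixfolds of
discriminant `-1` suffice. If each simple factor of `A` has real multiplication, the divisors suffice.

These Weil classes are algebraic by theorems of Markman (2025). So in the last two cases `ρ_p` is
surjective, for all `p`, for all motives in the tensor category generated by `h^1(X)`, over `F` (by
averaging over the Galois group); it is injective by the comparison with the rational homology. (If each
simple factor of `A` has real multiplication, no theorem on Weil classes is used.)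

The Tate module is described as in the library (`IsTateModule`: Weil pairing, Faltings, Hodge–Tate
decomposition, Serre, Pink, which are known properties of the Tate module of `X`). The rings are `WeilRing`
of `Pool.Agent.Y4.P.Stm` (all CM fields), `WeilRing` of `Pool.Agent.Y90.Stm` (imaginary quadratic fields,
fourfolds and sixfolds of discriminant `-1`) and `DivisorRing` of `Pool.Agent.H926.C.Div`.

Proof. By the Weil pairing an equivariant map is a Tate tensor in `a + b` variables. Tate tensors are
combinations of Hodge tensors (`MP_b8862a_ag.FactorsOfDimensionSeven`), which are Künneth components of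
Hodge classes on `X ^ (a + b)`. These are in the ring as there is no factor of Mumford's type
(`MP_9d7ff6_ag.LefschetzCommutators`), and in the smaller ring by the theorem of helper841
(`MP_e12fcd_ag.AllPowersDimensionFive`). If all factors have real multiplication, the criterion of
`MP_e12fcd_ag.ProductsDimensionSeven` gives only divisors.
-/

namespace Pool.Agent.Results.MP_3703a7_ag.AbelianTensorCategories

open Module TensorProduct
open Pool.Agent.Y90 (AV)
open Pool.Agent.Y90.St (IsHom IsPolarization)
open Pool.Agent.Y4.P (WeilRing)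
open Pool.Agent.R915 (IsFactor)
open Pool.Agent.Y224.TS.St (IsTateModule)
open Pool.Agent.H926.C (HasRealMultiplication)
open Pool.Agent.H926.C.Div (DivisorRing)

section definitions

variable {p : ℕ} [Fact p.Prime] {V Γ : Type} [AddCommGroup V] [Module ℚ_[p] V] [Group Γ]

/-- The multilinear forms in `a` variables on the Tate module `V`: the realization of `h^1(X)^{⊗ a}`. -/
abbrev Realization (p : ℕ) [Fact p.Prime] (V : Type) [AddCommGroup V] [Module ℚ_[p] V] (a : ℕ) : Type :=
  MultilinearMap ℚ_[p] (fun _ : Fin a => V) ℚ_[p]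

/-- The linear map `h` commutes with a subgroup of finite index of the Galois group, as a map from the
realization of `h^1(X)^{⊗ a}` to the realization of `h^1(X)^{⊗ b}(r)`, `r = m - a`: for `g` in this subgroup
`h (g φ) = χ(g) ^ r * g (h φ)`, where `(g φ)(v) = φ(ρ(g)⁻¹ v)` and `χ` is the cyclotomic character. (By the
weights, `2 m = a + b`.) -/
def IsEquivariant (ρ : Representation ℚ_[p] Γ V) (χ : Γ →* ℚ_[p]) {a b : ℕ} (m : ℕ)
    (h : Realization p V a →ₗ[ℚ_[p]] Realization p V b) : Prop :=
  ∃ Δ : Subgroup Γ, Δ.FiniteIndex ∧ ∀ g ∈ Δ, ∀ (φ : Realization p V a) (v : Fin b → V),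
    χ g ^ a * h (φ.compLinearMap fun _ => ρ g⁻¹) v = χ g ^ m * h φ fun k => ρ g⁻¹ (v k)

/-- The form `∏ i, ω (u i, ·)`. -/
noncomputable def pairing (ω : V →ₗ[ℚ_[p]] V →ₗ[ℚ_[p]] ℚ_[p]) {a : ℕ} (u : Fin a → V) : Realization p V a :=
  (MultilinearMap.mkPiAlgebra ℚ_[p] (Fin a) ℚ_[p]).compLinearMap fun i => ω (u i)

/-- The map `h` is the combination with the coefficients `c j` of the maps given by the classes `f j` of
degree `a + b` on `X ^ (a + b)` (`H = H_1(X, ℚ)`), by means of the pairing `ω`. -/
def IsCombination {H : Type} [AddCommGroup H] [Module ℚ H]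
    (ω : (ℚ_[p] ⊗[ℚ] H) →ₗ[ℚ_[p]] (ℚ_[p] ⊗[ℚ] H) →ₗ[ℚ_[p]] ℚ_[p]) {a b n : ℕ}
    (h : Realization p (ℚ_[p] ⊗[ℚ] H) a →ₗ[ℚ_[p]] Realization p (ℚ_[p] ⊗[ℚ] H) b)
    (c : Fin n → ℚ_[p]) (f : Fin n → ((Fin (a + b) → H) [⋀^Fin (a + b)]→ₗ[ℚ] ℚ)) : Prop :=
  ∀ (u : Fin a → H) (w : Fin b → H),
    h (pairing ω fun i => (1 : ℚ_[p]) ⊗ₜ[ℚ] u i) (fun i => (1 : ℚ_[p]) ⊗ₜ[ℚ] w i) =
      ∑ j, c j * ((f j (fun k => Pi.single k (Fin.append u w k)) : ℚ) : ℚ_[p])

end definitions

/-- The period map of the power `X ^ n`. -/
def power {H T : Type} [AddCommGroup H] [Module ℚ H] [AddCommGroup T] [Module ℂ T]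
    (per : H →+ T) (n : ℕ) : (Fin n → H) →+ (Fin n → T) where
  toFun v := fun i => per (v i)
  map_zero' := by
    funext i
    exact map_zero per
  map_add' v w := by
    funext i
    exact map_add per _ _

/-- All factors of `A` of dimensions four and six have endomorphisms besides the scalars. -/
def NoTrivialEndomorphisms (A : AV) : Prop :=
  ∀ Y, IsFactor Y A → finrank ℂ Y.T = 4 ∨ finrank ℂ Y.T = 6 →
    ∃ f, IsHom Y.per Y.per f ∧ ∀ c : ℚ, f ≠ c • 1

/-- Each simple factor of `A` has real multiplication or is a factor of an abelian variety `A₀` of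
dimension at most five. -/
def RealOrSmall (A : AV) : Prop :=
  ∃ A₀ : AV, finrank ℂ A₀.T ≤ 5 ∧
    ∀ Y, IsFactor Y A → IsFactor Y A₀ ∨ HasRealMultiplication Y.per

/-- **Homomorphisms between the realizations of the motives `h^1(X)^{⊗ a}` and `h^1(X)^{⊗ b}(r)`** are
combinations of maps given by divisors and Weil classes, for the abelian varieties `X` over number fields
(given as complex abelian varieties with a polarization `E`, its extension `ω`, and the representation `ρ`
of the Galois group `Γ` on the Tate module `ℚ_p ⊗ H_1(X, ℚ)`, with the known properties of the Tate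
module; `χ` is the cyclotomic character), all of whose simple factors over `ℂ` are factors of a complex
abelian variety `A` of dimension at most seven without simple factors of dimension four or six with only
the trivial endomorphisms. -/
theorem result (A X : AV) (h7 : finrank ℂ A.T ≤ 7) (hA : NoTrivialEndomorphisms A)
    (hX : ∀ Y, IsFactor Y X → IsFactor Y A) (E : X.H → X.H → ℚ) (hE : IsPolarization X.per E)
    (p : ℕ) [Fact p.Prime] [Algebra ℚ_[p] ℂ] [Algebra.IsAlgebraic ℚ_[p] ℂ]
    {Γ : Type} [Group Γ] (ρ : Representation ℚ_[p] Γ (ℚ_[p] ⊗[ℚ] X.H)) (χ : Γ →* ℚ_[p])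
    (hρ : IsTateModule X.per E ρ χ)
    (ω : (ℚ_[p] ⊗[ℚ] X.H) →ₗ[ℚ_[p]] (ℚ_[p] ⊗[ℚ] X.H) →ₗ[ℚ_[p]] ℚ_[p])
    (hω : ∀ u v : X.H, ω ((1 : ℚ_[p]) ⊗ₜ[ℚ] u) ((1 : ℚ_[p]) ⊗ₜ[ℚ] v) = ((E u v : ℚ) : ℚ_[p]))
    (a b m : ℕ) (hab : a + b = 2 * m)
    (h : Realization p (ℚ_[p] ⊗[ℚ] X.H) a →ₗ[ℚ_[p]] Realization p (ℚ_[p] ⊗[ℚ] X.H) b)
    (hh : IsEquivariant ρ χ m h) :
    ∃ (n : ℕ) (c : Fin n → ℚ_[p]) (f : Fin n → ((Fin (a + b) → X.H) [⋀^Fin (a + b)]→ₗ[ℚ] ℚ)),
      (∀ j, WeilRing (power X.per (a + b)) (Fin (a + b)) (f j)) ∧
      (RealOrSmall A →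
        ∀ j, Pool.Agent.Y90.St.WeilRing (power X.per (a + b)) (Fin (a + b)) (f j)) ∧
      ((∀ Y, IsFactor Y A → HasRealMultiplication Y.per) →
        ∀ j, DivisorRing (power X.per (a + b)) (Fin (a + b)) (f j)) ∧
      IsCombination ω h c f := by
  obtain ⟨n, c, f, h1, h2⟩ := Pool.Agent.H926.C.Mot.hom_seven A X h7 hA hX hE hρ ω hω hab h hh
  refine ⟨n, c, f, fun j => Pool.Agent.H926.C.Mot.weil_pow A X h7 hA hX (f j) (h1 j), ?_,
    fun hr j => Pool.Agent.H926.C.Div.div_pow A X h7 hA hr hX (f j) (h1 j), fun u w => ?_⟩
  · rintro ⟨A₀, h5, hs⟩ j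
    exact Pool.Agent.H926.C.Mot.weil_pow5 A A₀ X h7 h5 hs hA hX (f j) (h1 j)
  · exact h2 u w

end Pool.Agent.Results.MP_3703a7_ag.AbelianTensorCategories
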