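import Pool.Agent.H850.OL.Explicit
import Pool.Agent.H850.MT.Fix
import Pool.Agent.H850.LA.Dt
import Pool.Agent.H850.LA.Cn

/-!
# MP_3703a7_ag: the groups generated by two Frobenius elements at one place

The pure motives over a number field `F` are given by their realizations at all primes, the
polynomials of the Frobenius elements, the groups of morphisms over the algebraic closure, and the
Galois actions. We prove that for 100 percent of the places `v` of `F` two Frobenius elements at `v`
generate a large group, for all primes `p` prime to `v` at the same time: it is Zariski dense in the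
`p`-adic monodromy group of `X`, the Lie algebra of its closure contains the derived algebra of the
`p`-adic Lie algebra of `X`, the closure is open in the image of the Galois group if the abelianization
of this Lie algebra has dimension at most one, and the two elements decide the Tate conjecture for
`Hom(Y, Z)` over all finite extensions of `F`, for all motives `Y`, `Z` in the tensor category
generated by `X`. The only hypotheses are purity, semisimplicity, and that the monodromy group of
`X` is connected over `F` at ONE prime; we prove that it is then connected at all primes (Serre).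
-/

set_option autoImplicit false
set_option linter.unusedSectionVars false

namespace Pool.Agent.Results.MP_3703a7_ag.GroupsAtOnePlace

open NumberField Filter Topology IsDedekindDomain MeasureTheory
open Pool.Agent.W401.Cheb (GK IsFrob IsInert dens)

/-- A matrix over `ℤ_p` viewed over `ℚ_p`. -/
noncomputable def rat {p : ℕ} [Fact p.Prime] {N : ℕ} (g : GL (Fin N) ℤ_[p]) :
    Matrix (Fin N) (Fin N) ℚ_[p] :=
  (g : Matrix (Fin N) (Fin N) ℤ_[p]).map (algebraMap ℤ_[p] ℚ_[p])

/-- A set of matrices acts semisimply: every stable subspace has a stable complement. -/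
def ActSemisimply {p : ℕ} [Fact p.Prime] {N : ℕ} (S : Set (Matrix (Fin N) (Fin N) ℚ_[p])) : Prop :=
  ∀ W : Submodule ℚ_[p] (Fin N → ℚ_[p]), (∀ A ∈ S, ∀ x ∈ W, A.mulVec x ∈ W) →
    ∃ W' : Submodule ℚ_[p] (Fin N → ℚ_[p]), (∀ A ∈ S, ∀ x ∈ W', A.mulVec x ∈ W') ∧ IsCompl W W'

/-- Pure (effective) motives over the number field `F`: a countable set of objects `X`, for every
prime `p` the continuous action of the absolute Galois group on a lattice `ℤ_p ^ n` in the `p`-adic
realization `X_p = ℚ_p ^ n`, `n = rank X`; a finite set of bad places; for the good places `v` the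
characteristic polynomial `frob X v` of the geometric Frobenius, with integral coefficients and
independent of `p`, the realizations at the primes `p` prime to `v` being unramified at `v`; for two
objects the group `Hom X Y` of morphisms over the algebraic closure, on which Galois acts with open
stabilisers, and the realization of a morphism as a linear map from `X_p` to `Y_p`, compatible with
the Galois actions. -/
structure Motives (F : Type) [Field F] [NumberField F] where
  Obj : Type
  countable : Countable Obj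
  rank : Obj → ℕ
  ρ : ∀ (X : Obj) (p : ℕ) [Fact p.Prime], GK F →* GL (Fin (rank X)) ℤ_[p]
  cont : ∀ (X : Obj) (p : ℕ) [Fact p.Prime],
    Continuous fun σ => (ρ X p σ : Matrix (Fin (rank X)) (Fin (rank X)) ℤ_[p])
  bad : Obj → Set (HeightOneSpectrum (𝓞 F))
  bad_finite : ∀ X, (bad X).Finite
  frob : Obj → HeightOneSpectrum (𝓞 F) → Polynomial ℤ
  unramified : ∀ (X : Obj) (p : ℕ) [Fact p.Prime], ∀ v ∉ bad X, (p : 𝓞 F) ∉ v.asIdeal →
    ∀ σ, IsInert v σ → ρ X p σ = 1
  charpoly : ∀ (X : Obj) (p : ℕ) [Fact p.Prime], ∀ v ∉ bad X, (p : 𝓞 F) ∉ v.asIdeal →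
    ∀ σ, IsFrob v σ → (rat (ρ X p σ⁻¹)).charpoly = (frob X v).map (algebraMap ℤ ℚ_[p])
  Hom : Obj → Obj → Type
  [group : ∀ X Y, AddCommGroup (Hom X Y)]
  [galois : ∀ X Y, DistribMulAction (GK F) (Hom X Y)]
  isOpen_stabilizer : ∀ X Y (h : Hom X Y),
    IsOpen (MulAction.stabilizer (GK F) h : Set (GK F))
  real : ∀ (X Y : Obj) (p : ℕ) [Fact p.Prime],
    Hom X Y →+ Matrix (Fin (rank Y)) (Fin (rank X)) ℚ_[p]
  equivariant : ∀ (X Y : Obj) (p : ℕ) [Fact p.Prime] (σ : GK F) (h : Hom X Y),
    real X Y p (σ • h) * rat (ρ X p σ) = rat (ρ Y p σ) * real X Y p h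

attribute [instance] Motives.group Motives.galois

variable {F : Type} [Field F] [NumberField F]

namespace Motives

variable (M : Motives F) (X Y : M.Obj) (p : ℕ) [Fact p.Prime]

/-- The `p`-adic realization of `X` is a semisimple representation of the Galois group of `F`. -/
def Semisimple : Prop := ActSemisimply (Set.range fun σ => rat (M.ρ X p σ))

/-- The linear map `φ` from `X_p` to `Y_p` commutes with the Galois element `σ`. -/
def Commutes (φ : Matrix (Fin (M.rank Y)) (Fin (M.rank X)) ℚ_[p]) (σ : GK F) : Prop :=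
  φ * rat (M.ρ X p σ) = rat (M.ρ Y p σ) * φ

/-- `φ` is a homomorphism of representations of the absolute Galois group of `L`. -/
def HomOver (L : IntermediateField F (AlgebraicClosure F))
    (φ : Matrix (Fin (M.rank Y)) (Fin (M.rank X)) ℚ_[p]) : Prop :=
  ∀ σ ∈ L.fixingSubgroup, M.Commutes X Y p φ σ

/-- `φ` is a homomorphism of representations over some finite extension of `F`. -/
def PotentialHom (φ : Matrix (Fin (M.rank Y)) (Fin (M.rank X)) ℚ_[p]) : Prop :=
  ∃ L : IntermediateField F (AlgebraicClosure F), FiniteDimensional F L ∧ M.HomOver X Y p L φ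

/-- The Tate conjecture for `Hom(X, Y)` over `L`: every homomorphism of representations over `L` is
a `ℚ_p`-combination of morphisms of motives over `L`. -/
def TateOver (L : IntermediateField F (AlgebraicClosure F)) : Prop :=
  ∀ φ, M.HomOver X Y p L φ → φ ∈ Submodule.span ℚ_[p]
    (M.real X Y p '' {h | ∀ σ ∈ L.fixingSubgroup, σ • h = h})

/-- The Tate conjecture for `Hom(X, Y)` at `p` over all finite extensions of `F`. -/
def Tate : Prop := ∀ L : IntermediateField F (AlgebraicClosure F), FiniteDimensional F L →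
  M.TateOver X Y p L

/-- `φ` is a `ℚ_p`-combination of morphisms of motives over the algebraic closure. -/
def Algebraic (φ : Matrix (Fin (M.rank Y)) (Fin (M.rank X)) ℚ_[p]) : Prop :=
  φ ∈ Submodule.span ℚ_[p] (Set.range (M.real X Y p))

/-- The value of a polynomial at the entries of the matrix of `σ` on `X_p`. -/
noncomputable def value (P : MvPolynomial (Fin (M.rank X) × Fin (M.rank X)) ℚ_[p]) (σ : GK F) :
    ℚ_[p] :=
  MvPolynomial.eval (fun q => rat (M.ρ X p σ) q.1 q.2) P

/-- The `p`-adic monodromy group of `X` is connected over `F`: a polynomial in the matrix entries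
which vanishes on the image of the Galois group of some finite extension of `F` vanishes on the image
of the Galois group of `F`. -/
def Connected : Prop :=
  ∀ (P : MvPolynomial (Fin (M.rank X) × Fin (M.rank X)) ℚ_[p])
    (L : IntermediateField F (AlgebraicClosure F)), FiniteDimensional F L →
      (∀ σ ∈ L.fixingSubgroup, M.value X p P σ = 0) → ∀ σ, M.value X p P σ = 0

/-- For one prime `q`, the realization `X_q` is semisimple and the `q`-adic monodromy group of `X` is
connected over `F`. -/
def ConnectedOnce : Prop :=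
  ∃ (q : ℕ) (_ : Fact q.Prime), M.Semisimple X q ∧ M.Connected X q

/-- The subgroup `H` of the Galois group is Zariski dense in the `p`-adic monodromy group of `X`:
a polynomial in the matrix entries which vanishes on `H` vanishes on the Galois group of `F`. -/
def ZariskiDense (H : Subgroup (GK F)) : Prop :=
  ∀ P : MvPolynomial (Fin (M.rank X) × Fin (M.rank X)) ℚ_[p],
    (∀ σ ∈ H, M.value X p P σ = 0) → ∀ σ, M.value X p P σ = 0

/-- The pair of Galois elements `α`, `β` decides about `(X, Y)` at `p`: the maps from `X_p` to `Y_p`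
commuting with `α` and `β` are the homomorphisms of representations over finite extensions of `F`,
and the Tate conjecture for `Hom(X, Y)` over all finite extensions of `F` holds if and only if all
these maps are algebraic. -/
def Decides (α β : GK F) : Prop :=
  (∀ φ, M.Commutes X Y p φ α ∧ M.Commutes X Y p φ β ↔ M.PotentialHom X Y p φ) ∧
  (M.Tate X Y p ↔
    ∀ φ, M.Commutes X Y p φ α → M.Commutes X Y p φ β → M.Algebraic X Y p φ)

/-- `X` is pure of weight `w`: at the good places the complex roots of the Frobenius polynomial have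
absolute value `q ^ (w / 2)`, where `q` is the norm of the place. -/
def Pure (w : ℕ) : Prop :=
  ∀ v ∉ M.bad X, ∀ z ∈ ((M.frob X v).map (algebraMap ℤ ℂ)).roots,
    ‖z‖ ^ 2 = (Ideal.absNorm v.asIdeal : ℝ) ^ w

/-- The matrix `A` belongs to the Lie algebra of the closure of the image of the subgroup `H` of the
Galois group in the automorphisms of `X_p`: it is a limit of `(σ_m - 1) / p ^ m` with `σ_m` in
`H`. -/
def InLie (H : Subgroup (GK F)) (A : Matrix (Fin (M.rank X)) (Fin (M.rank X)) ℚ_[p]) : Prop :=
  ∃ σ : ℕ → GK F, (∀ m, σ m ∈ H) ∧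
    Tendsto (fun m : ℕ => ((p : ℚ_[p]) ^ m)⁻¹ • (rat (M.ρ X p (σ m)) - 1)) atTop (𝓝 A)

/-- The Lie algebra of the image of the Galois group of `F` in the automorphisms of `X_p`, divided
by its brackets, has dimension at most one. -/
def SmallCentre : Prop :=
  ∃ Z : Matrix (Fin (M.rank X)) (Fin (M.rank X)) ℚ_[p], ∀ A, M.InLie X p ⊤ A →
    ∃ c : ℚ_[p], A - c • Z ∈ Submodule.span ℚ_[p]
      {D | ∃ B C, M.InLie X p ⊤ B ∧ M.InLie X p ⊤ C ∧ D = B * C - C * B}

/-- The closure of the image of the subgroup `H` in the automorphisms of `X_p` contains the image of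
the Galois group of a finite extension of `F`: it is open in the image of the Galois group of `F`. -/
def OpenImage (H : Subgroup (GK F)) : Prop :=
  ∃ L : IntermediateField F (AlgebraicClosure F), FiniteDimensional F L ∧
    ∀ σ ∈ L.fixingSubgroup, rat (M.ρ X p σ) ∈ closure ((fun τ => rat (M.ρ X p τ)) '' H)

/-- `Y_p` belongs to the tensor category generated by `X_p`, that is, it is given by an algebraic
representation of the `p`-adic monodromy group of `X`: the matrix entries of a Galois element on
`Y_p` are polynomials in the matrix entries on `X_p` and the inverse of their determinant. -/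
def Generated : Prop :=
  ∃ (e : ℕ) (Q : Fin (M.rank Y) → Fin (M.rank Y) →
      MvPolynomial (Fin (M.rank X) × Fin (M.rank X)) ℚ_[p]),
    ∀ σ i j, (rat (M.ρ X p σ)).det ^ e * rat (M.ρ Y p σ) i j = M.value X p (Q i j) σ

/-- For all primes `p` prime to `v` for which `X_p` is semisimple, and all `k ≥ 1`, the group `H`
generated by `α ^ k` and `β ^ k` is large: (a) it is Zariski dense in the monodromy group; (b) the Lie algebra of its closure contains
all brackets of the Lie algebra of the image of the Galois group; (c) its closure is open in the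
image of the Galois group if the abelianization of this Lie algebra has dimension at most one and
`w ≠ 0`; (d) `α ^ k`, `β ^ k` decide about `(Y, Z)` for all motives `Y`, `Z` in the tensor category
generated by `X_p`. -/
def Large (w : ℕ) (v : HeightOneSpectrum (𝓞 F)) (α β : GK F) : Prop :=
  ∀ (p : ℕ) [Fact p.Prime], (p : 𝓞 F) ∉ v.asIdeal → M.Semisimple X p →
    ∀ k : ℕ, k ≠ 0 →
      M.ZariskiDense X p (Subgroup.closure {α ^ k, β ^ k}) ∧
      (∀ A B, M.InLie X p ⊤ A → M.InLie X p ⊤ B →
        M.InLie X p (Subgroup.closure {α ^ k, β ^ k}) (A * B - B * A)) ∧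
      (w ≠ 0 → M.SmallCentre X p → M.OpenImage X p (Subgroup.closure {α ^ k, β ^ k})) ∧
      ∀ Y Z : M.Obj, M.Generated X Y p → M.Generated X Z p → M.Decides Y Z p (α ^ k) (β ^ k)

end Motives

section Proofs

open Pool.Agent.H850.TF Pool.Agent.H850.RG

variable (M : Motives F) (X Y : M.Obj) (p : ℕ) [Fact p.Prime]

theorem exists_field {U : Subgroup (GK F)} (hU : IsOpen (U : Set (GK F))) :
    ∃ L : IntermediateField F (AlgebraicClosure F), FiniteDimensional F L ∧
      L.fixingSubgroup ≤ U := by
  have h1 : (U : Set (GK F)) ∈ 𝓝 (1 : GK F) := hU.mem_nhds U.one_mem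
  rw [krullTopology_mem_nhds_one_iff] at h1
  exact h1

theorem commutes_iff (φ : Matrix (Fin (M.rank Y)) (Fin (M.rank X)) ℚ_[p]) (σ : GK F) :
    M.Commutes X Y p φ σ ↔ φ * Pool.Agent.H850.TF.rat (M.ρ X p) σ = Pool.Agent.H850.TF.rat (M.ρ Y p) σ * φ := Iff.rfl

theorem descent {φ : Matrix (Fin (M.rank Y)) (Fin (M.rank X)) ℚ_[p]}
    (hφ : M.Algebraic X Y p φ) (L : IntermediateField F (AlgebraicClosure F))
    (hL : M.HomOver X Y p L φ) :
    φ ∈ Submodule.span ℚ_[p] (M.real X Y p '' {h | ∀ σ ∈ L.fixingSubgroup, σ • h = h}) :=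
  descent_gen (M.ρ X p) (M.ρ Y p) (M.isOpen_stabilizer X Y) (M.real X Y p)
    (fun σ h => M.equivariant X Y p σ h) hφ L.fixingSubgroup hL

theorem connected_iff : M.Connected X p ↔ ∀ σ, σ ∈ conn (M.ρ X p) := by
  constructor
  · intro h σ
    have h1 : ConnOn (M.ρ X p) ⊤ := by
      refine connOn_of_poly (M.ρ X p) _ fun P V hV hPV u _ => ?_
      obtain ⟨L, hL, hLV⟩ := exists_field hV
      exact h P L hL (fun σ hσ => hPV σ (hLV hσ)) u
    exact h1.le trivial
  · intro h P L hL hP σ
    exact connOn_conn (M.ρ X p) _ (Pool.Agent.H850.MT2.val_mem (M.ρ X p) P)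
      L.fixingSubgroup L.fixingSubgroup_isOpen hP σ (h σ)

/-- a pair deciding about the homomorphisms decides about the Tate conjecture -/
theorem decides_of {α β : GK F}
    (h : ∀ φ, M.Commutes X Y p φ α ∧ M.Commutes X Y p φ β ↔ M.PotentialHom X Y p φ) :
    M.Decides X Y p α β := by
  refine ⟨h, ?_, ?_⟩
  · intro hT φ h1 h2
    obtain ⟨L, hL, hLφ⟩ := (h φ).1 ⟨h1, h2⟩
    exact Submodule.span_mono (Set.image_subset_range _ _) (hT L hL φ hLφ)
  · intro hA L hL φ hLφ
    obtain ⟨h1, h2⟩ := (h φ).2 ⟨L, hL, hLφ⟩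
    exact descent M X Y p (hA φ h1 h2) L hLφ

variable [MeasurableSpace (GK F)] [BorelSpace (GK F)] (μ : Measure (GK F)) [μ.IsHaarMeasure]
  [μ.OuterRegular]

open Pool.Agent.H850.MT2 in
/-- Zariski dense pairs of powers control the motive -/
theorem large {w : ℕ} (hw : M.Pure X w) (hco : M.ConnectedOnce X) {v : HeightOneSpectrum (𝓞 F)} (hv : v ∉ M.bad X)
    (hz : ZGood (M.ρ X) μ v) {α : GK F} (hα : IsFrob v α) :
    ∀ᵐ γ ∂μ, IsFrob v (γ * α * γ⁻¹) ∧ M.Large X w v α (γ * α * γ⁻¹) := by
  filter_upwards [hz α hα] with γ hγ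
  refine ⟨isFrob_conj hα γ, fun p hp hvp hX k hk => ?_⟩
  obtain ⟨q, hq, hXq, hcq⟩ := hco
  have hconn : ∀ σ, σ ∈ conn (M.ρ X p) :=
    Pool.Agent.H850.LA.conn_of_conn (M.ρ X) μ (M.bad_finite X) (M.frob X)
      (fun ℓ _ => M.cont X ℓ) (fun ℓ _ v hv hvℓ σ hσ => M.unramified X ℓ v hv hvℓ σ hσ)
      (fun ℓ _ v hv hvℓ σ hσ => M.charpoly X ℓ v hv hvℓ σ hσ) q hXq
      ((connected_iff M X q).1 hcq) p hX
  have hZ : ∀ k : ℕ, k ≠ 0 → ZD (M.ρ X p) (α ^ k) ((γ * α * γ⁻¹) ^ k) :=
    fun k hk => hγ p hvp hX hconn k hk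
  obtain ⟨m, hm, hU⟩ := Pool.Agent.H850.LA.exists_pow_U1 (M.ρ X p) (M.cont X p)
  have hlie : ∀ (H : Subgroup (GK F)) A, M.InLie X p H A ↔
      A ∈ Pool.Agent.H850.LA.tanH (M.ρ X p) H := fun H A =>
    (Pool.Agent.H850.LA.mem_tanH (M.ρ X p) H A).symm
  refine ⟨hZ k hk, fun A B hA hB => ?_, fun hw0 hab => ?_, fun Y Z hY hZ' => ?_⟩
  · rw [hlie] at hA hB ⊢
    exact Pool.Agent.H850.LA.derived_le (M.ρ X p) hZ hm (hU _) (hU _) hk hA hB
  · by_cases hn : M.rank X = 0
    · refine ⟨⊥, inferInstance, fun σ _ => subset_closure ⟨1, Subgroup.one_mem _, ?_⟩⟩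
      ext i
      exact absurd i.2 (by omega)
    · obtain ⟨Z, hZab⟩ := hab
      have hdet : ∀ k : ℕ, k ≠ 0 → (Pool.Agent.H850.TF.rat (M.ρ X p) α).det ^ k ≠ 1 := by
        intro j hj h1
        have hq : 2 ≤ Ideal.absNorm v.asIdeal := by
          have h0 : Ideal.absNorm v.asIdeal ≠ 1 := by
            rw [Ne, Ideal.absNorm_eq_one_iff]
            exact v.isPrime.ne_top
          have h0' : Ideal.absNorm v.asIdeal ≠ 0 := by
            rw [Ne, Ideal.absNorm_eq_zero_iff]
            exact v.ne_bot
          omega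
        refine Pool.Agent.H850.LA.det_pow_ne (M.charpoly X p v hv hvp α hα) hq hw0 hn (hw v hv) hj ?_
        have h2 : (rat (M.ρ X p α⁻¹)).det ^ j *
            (Pool.Agent.H850.TF.rat (M.ρ X p) α).det ^ j = 1 := by
          have h3 : rat (M.ρ X p α⁻¹) * Pool.Agent.H850.TF.rat (M.ρ X p) α = 1 :=
            Pool.Agent.H850.LA.rat_inv_mul (M.ρ X p) α
          rw [← mul_pow, ← Matrix.det_mul, h3, Matrix.det_one, one_pow]
        rwa [h1, mul_one] at h2
      have hbrk : ∀ A ∈ Pool.Agent.H850.LA.tanH (M.ρ X p) (⊤ : Subgroup (GK F)), ∃ c : ℚ_[p],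
          A - c • Z ∈ Pool.Agent.H850.LA.brk (M.ρ X p) := by
        intro A hA
        obtain ⟨c, hc⟩ := hZab A ((hlie ⊤ A).2 hA)
        refine ⟨c, ?_⟩
        unfold Pool.Agent.H850.LA.brk
        refine Submodule.span_mono ?_ hc
        rintro D ⟨B, C, hB, hC, hD⟩
        exact ⟨B, (hlie ⊤ B).1 hB, C, (hlie ⊤ C).1 hC, hD⟩
      obtain ⟨N, hN⟩ := Pool.Agent.H850.LA.closure_open (M.ρ X p) hZ hm (hU _) (hU _) hdet hbrk hk
      obtain ⟨L, hL, hLN⟩ := exists_field
        (Pool.Agent.H850.LA.isOpen_levSub (M.ρ X p) (M.cont X p) N)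
      exact ⟨L, hL, fun σ hσ => hN σ (hLN hσ)⟩
  · obtain ⟨eY, QY, hQY⟩ := hY
    obtain ⟨eZ, QZ, hQZ⟩ := hZ'
    have key : ∀ k : ℕ, k ≠ 0 → ∀ φ, M.Commutes Y Z p φ (α ^ k) →
        M.Commutes Y Z p φ ((γ * α * γ⁻¹) ^ k) → ∀ σ, M.Commutes Y Z p φ σ := by
      intro k hk φ h1 h2 σ
      exact Pool.Agent.H850.LA.hom_zd (M.ρ X p) (Pool.Agent.H850.TF.rat (M.ρ Y p))
        (Pool.Agent.H850.TF.rat (M.ρ Z p)) hQY hQZ (hZ k hk) h1 h2 σ
    refine decides_of M Y Z p fun φ => ⟨fun h => ⟨⊥, inferInstance, fun σ _ =>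
      key k hk φ h.1 h.2 σ⟩, ?_⟩
    rintro ⟨L, hL, hLφ⟩
    have hfin : Finite (GK F ⧸ L.fixingSubgroup) :=
      Subgroup.quotient_finite_of_isOpen _ L.fixingSubgroup_isOpen
    have hidx : L.fixingSubgroup.FiniteIndex := Subgroup.finiteIndex_of_finite_quotient
    obtain ⟨a, ha, -, ha'⟩ := Subgroup.exists_pow_mem_of_index_ne_zero hidx.index_ne_zero (α ^ k)
    obtain ⟨b, hb, -, hb'⟩ := Subgroup.exists_pow_mem_of_index_ne_zero hidx.index_ne_zero
      ((γ * α * γ⁻¹) ^ k)
    have h1 : α ^ (k * (a * b)) ∈ L.fixingSubgroup := by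
      rw [pow_mul, pow_mul]
      exact L.fixingSubgroup.pow_mem ha' b
    have h2 : (γ * α * γ⁻¹) ^ (k * (a * b)) ∈ L.fixingSubgroup := by
      rw [pow_mul, mul_comm a b, pow_mul]
      exact L.fixingSubgroup.pow_mem hb' a
    have hne : k * (a * b) ≠ 0 := Nat.mul_ne_zero hk (Nat.mul_ne_zero (by omega) (by omega))
    have h3 := key _ hne φ (hLφ _ h1) (hLφ _ h2)
    exact ⟨h3 _, h3 _⟩

open Pool.Agent.H850.MT2 in
/-- the property of a place -/
def Good (v : HeightOneSpectrum (𝓞 F)) : Prop :=
  (∃ w, M.Pure X w) → ZGood (M.ρ X) μ v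

open Pool.Agent.H850.MT2 in
theorem bad_null : Tendsto (dens fun v : HeightOneSpectrum (𝓞 F) => ¬ Good M X μ v) atTop
    (𝓝 0) := by
  by_cases hp : ∃ w, M.Pure X w
  · obtain ⟨w, hw⟩ := hp
    have h2 := zgood_null (M.ρ X) μ (M.bad_finite X) (M.frob X) w hw (fun ℓ _ => M.cont X ℓ)
      (fun ℓ _ v hv hvℓ σ hσ => M.unramified X ℓ v hv hvℓ σ hσ)
      (fun ℓ _ v hv hvℓ σ hσ => M.charpoly X ℓ v hv hvℓ σ hσ)
    refine squeeze_zero (fun N => dens_nonneg _ N) (fun N => dens_mono (fun v hv => ?_) N) h2
    intro hg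
    exact hv fun _ => hg
  · have h1 : (dens fun v : HeightOneSpectrum (𝓞 F) => ¬ Good M X μ v) = fun _ => 0 := by
      funext n
      unfold dens
      have : IsEmpty {v : HeightOneSpectrum (𝓞 F) //
          Ideal.absNorm v.asIdeal ≤ n ∧ ¬ Good M X μ v} :=
        ⟨fun v => v.2.2 fun h => absurd h hp⟩
      rw [Nat.card_of_isEmpty]
      simp
    rw [h1]
    exact tendsto_const_nhds

/-- one set of primes for all motives -/
theorem universal : ∃ P : HeightOneSpectrum (𝓞 F) → Prop, Tendsto (dens P) atTop (𝓝 1) ∧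
    ∀ X : M.Obj, {v | P v ∧ ¬ Good M X μ v}.Finite := by
  classical
  have hcount := M.countable
  let _ : Encodable M.Obj := Encodable.ofCountable M.Obj
  have hfalse : Tendsto (dens fun _ : HeightOneSpectrum (𝓞 F) => False) atTop (𝓝 0) := by
    have h1 : (dens fun _ : HeightOneSpectrum (𝓞 F) => False) = fun _ => 0 := by
      funext n
      unfold dens
      have : IsEmpty {v : HeightOneSpectrum (𝓞 F) //
          Ideal.absNorm v.asIdeal ≤ n ∧ False} := ⟨fun v => v.2.2⟩
      rw [Nat.card_of_isEmpty]
      simp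
    rw [h1]
    exact tendsto_const_nhds
  obtain ⟨B, hB, hBf⟩ := exists_pseudo
    (fun n v => ∃ i : M.Obj, (Encodable.encode i = n) ∧ ¬ Good M i μ v) (by
      intro n
      by_cases h : ∃ i : M.Obj, Encodable.encode i = n
      · obtain ⟨i, rfl⟩ := h
        have h1 : (fun v => ∃ j : M.Obj, (Encodable.encode j = Encodable.encode i) ∧
            ¬ Good M j μ v) = fun v => ¬ Good M i μ v := by
          funext v
          apply propext
          constructor
          · rintro ⟨j, hj, h2⟩
            rwa [Encodable.encode_injective hj] at h2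
          · intro h2
            exact ⟨i, rfl, h2⟩
        rw [h1]
        exact bad_null M i μ
      · have h1 : (fun v => ∃ j : M.Obj, (Encodable.encode j = n) ∧ ¬ Good M j μ v) =
            fun _ => False := by
          funext v
          exact propext ⟨fun ⟨j, hj, _⟩ => h ⟨j, hj⟩, fun h2 => h2.elim⟩
        rw [h1]
        exact hfalse)
  refine ⟨fun v => ¬ B v, dens_compl hB, ?_⟩
  intro X
  refine (hBf (Encodable.encode X)).subset ?_
  rintro v ⟨hv, hg⟩
  exact ⟨⟨X, rfl, hg⟩, hv⟩

end Proofs

/-- **Two Frobenius elements at one place generate a large group, at all primes.** Let `M` be the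
pure motives over the number field `F`. There is one set `P` of places of `F` of density one such
that for every motive `X`, pure of some weight `w`, for which `X_q` is semisimple with a monodromy
group connected over `F` for one prime `q`, all but finitely many places `v` in `P` have the
following property: for every Frobenius element `α` at `v` and almost all `γ` in the absolute
Galois group of `F`, the two Frobenius elements `α` and `β = γ α γ⁻¹` at `v` satisfy, for ALL primes
`p` prime to `v` for which `X_p` is semisimple, and for all `k ≥ 1`: the group `H` generated by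
`α ^ k` and `β ^ k` is Zariski dense in the `p`-adic monodromy group of `X`; the Lie algebra of its
closure contains the derived algebra of the Lie algebra of the image of the Galois group; the closure
is open in this image if the abelianization of the Lie algebra has dimension at most one and
`w ≠ 0`; and for all motives `Y`, `Z` in the tensor category generated by `X` the maps from `Y_p` to
`Z_p` commuting with `α ^ k` and `β ^ k` are the homomorphisms of representations over finite
extensions of `F`, and the Tate conjecture for `Hom(Y, Z)` holds over all finite extensions of `F` if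
and only if all these maps are algebraic. -/
theorem result [MeasurableSpace (GK F)] [BorelSpace (GK F)]
    (μ : Measure (GK F)) [μ.IsHaarMeasure] [μ.OuterRegular] (M : Motives F) :
    ∃ P : HeightOneSpectrum (𝓞 F) → Prop, Tendsto (dens P) atTop (𝓝 1) ∧
      ∀ (X : M.Obj) (w : ℕ), M.Pure X w → M.ConnectedOnce X →
        ∃ S : Set (HeightOneSpectrum (𝓞 F)), S.Finite ∧
          ∀ v, P v → v ∉ S → ∀ α, IsFrob v α → ∀ᵐ γ ∂μ,
            IsFrob v (γ * α * γ⁻¹) ∧ M.Large X w v α (γ * α * γ⁻¹) := by
  obtain ⟨P, hP, h⟩ := universal M μ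
  refine ⟨P, hP, fun X w hw hco => ⟨_, (h X).union (M.bad_finite X), fun v hv hvS α hα => ?_⟩⟩
  have hg : Good M X μ v := by
    by_contra hg
    exact hvS (Or.inl ⟨hv, hg⟩)
  exact large M X μ hw hco (fun hb => hvS (Or.inr hb)) (hg ⟨w, hw⟩) hα

end Pool.Agent.Results.MP_3703a7_ag.GroupsAtOnePlace
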