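import Pool.Agent.H850.IG.Core2

/-!
# MP_3703a7_ag: the growth of isogeny classes decides the Tate conjecture

`M` is a pure motive over a number field with absolute Galois group `Γ`, `E = End(M)`, and `T_p` is
a Galois stable lattice in the `p`-adic realisation `V_p = M_p`. We count the isomorphism classes
of integral structures (Galois stable lattices) on powers of `M` which lie between `p ^ n T` and
`T`. We prove a gap theorem: if `E ⊗ ℚ_p → End_Γ(V_p)` is surjective and `V_p` is semisimple, then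
the number of classes is bounded (independently of `n`) for every power of `M`; otherwise it is at
least `binomial (n - δ) r` for the power `M ^ (2r)`, for all `r` and `n`. The isomorphisms are those
coming from `E`.
-/

set_option autoImplicit false

namespace Pool.Agent.Results.MP_3703a7_ag.IsogenyClassGrowth

open Pool.Agent.H850.IG

/-- A matrix over `ℤ_p` viewed over `ℚ_p`. -/
noncomputable def rat {p : ℕ} [Fact p.Prime] {N : ℕ} (g : GL (Fin N) ℤ_[p]) :
    Matrix (Fin N) (Fin N) ℚ_[p] :=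
  (g : Matrix (Fin N) (Fin N) ℤ_[p]).map (algebraMap ℤ_[p] ℚ_[p])

/-- A set of matrices acts semisimply: every stable subspace has a stable complement. -/
def Semisimple {p : ℕ} [Fact p.Prime] {N : ℕ} (S : Set (Matrix (Fin N) (Fin N) ℚ_[p])) : Prop :=
  ∀ W : Submodule ℚ_[p] (Fin N → ℚ_[p]), (∀ A ∈ S, ∀ x ∈ W, A.mulVec x ∈ W) →
    ∃ W' : Submodule ℚ_[p] (Fin N → ℚ_[p]), (∀ A ∈ S, ∀ x ∈ W', A.mulVec x ∈ W') ∧ IsCompl W W'

/-- The realisations of a pure motive `M` of rank `N` over a number field with absolute Galois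
group `Γ`: the endomorphism algebra `E` of `M` over `ℚ`, for every prime `p` the Galois
representation on a lattice `T_p = ℤ_p ^ N` in `V_p = ℚ_p ^ N`, and the action of `E` on `V_p`,
which commutes with Galois and is semisimple (this holds if `E` is a semisimple algebra). -/
structure IntegralMotive (Γ : Type) [Group Γ] where
  N : ℕ
  E : Type
  [ringE : Ring E]
  [algebraE : Algebra ℚ E]
  ρ : (p : ℕ) → [Fact p.Prime] → Γ →* GL (Fin N) ℤ_[p]
  α : (p : ℕ) → [Fact p.Prime] → E →ₐ[ℚ] Matrix (Fin N) (Fin N) ℚ_[p]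
  commute : ∀ (p : ℕ) [Fact p.Prime] (e : E) (γ : Γ), Commute (α p e) (rat (ρ p γ))
  semisimple : ∀ (p : ℕ) [Fact p.Prime], Semisimple (Set.range (α p))

attribute [instance] IntegralMotive.ringE IntegralMotive.algebraE

variable {Γ : Type} [Group Γ] (M : IntegralMotive Γ)

namespace IntegralMotive

/-- The image of `E ⊗ ℚ_p` in the endomorphisms of `V_p`. -/
noncomputable def Ep (p : ℕ) [Fact p.Prime] : Submodule ℚ_[p] (Matrix (Fin M.N) (Fin M.N) ℚ_[p]) :=
  Submodule.span ℚ_[p] (Set.range (M.α p))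

/-- The Tate conjecture for endomorphisms of `M` at `p` (every endomorphism of `V_p` commuting with
Galois is a `ℚ_p`-combination of endomorphisms of `M`), and semisimplicity of `V_p`. -/
def TateAt (p : ℕ) [Fact p.Prime] : Prop :=
  (∀ X : Matrix (Fin M.N) (Fin M.N) ℚ_[p], (∀ γ, Commute (rat (M.ρ p γ)) X) → X ∈ M.Ep p) ∧
    Semisimple (Set.range fun γ => rat (M.ρ p γ))

/-- The space `V_p ^ ι`, the `p`-adic realisation of the power `M ^ ι`. -/
abbrev Vp (p : ℕ) [Fact p.Prime] (ι : Type) : Type := ι → Fin M.N → ℚ_[p]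

/-- The action of a matrix with entries in `End(V_p)` on `V_p ^ ι`. -/
noncomputable def act (p : ℕ) [Fact p.Prime] {ι : Type} [Fintype ι]
    (u : ι → ι → Matrix (Fin M.N) (Fin M.N) ℚ_[p]) : M.Vp p ι →ₗ[ℤ_[p]] M.Vp p ι where
  toFun x i := ∑ j, (u i j).mulVec (x j)
  map_add' x y := by
    funext i
    simp only [Pi.add_apply, Matrix.mulVec_add, Finset.sum_add_distrib]
  map_smul' c x := by
    funext i
    simp only [Pi.smul_apply, Matrix.mulVec_smul, Finset.smul_sum, RingHom.id_apply]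

/-- `L` is a Galois stable lattice of `V_p ^ ι` with `X T ⊆ L ⊆ T`, where `T = T_p ^ ι` consists of
the vectors with integral coordinates. -/
def Between (p : ℕ) [Fact p.Prime] {ι : Type} (X : ℕ)
    (L : Submodule ℤ_[p] (M.Vp p ι)) : Prop :=
  (∀ x : M.Vp p ι, (∀ i j, ‖x i j‖ ≤ 1) → (X : ℚ_[p]) • x ∈ L) ∧
  (∀ x ∈ L, ∀ i j, ‖x i j‖ ≤ 1) ∧
  ∀ γ, ∀ x ∈ L, (fun i => (rat (M.ρ p γ)).mulVec (x i)) ∈ L

/-- Two lattices of `V_p ^ ι` are isomorphic: some `u` in `GL_ι(E ⊗ ℚ_p)` maps one to the other. -/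
def IsoAt (p : ℕ) [Fact p.Prime] {ι : Type} [Fintype ι] (L L' : Submodule ℤ_[p] (M.Vp p ι)) :
    Prop :=
  ∃ u : ι → ι → Matrix (Fin M.N) (Fin M.N) ℚ_[p], (∀ i j, u i j ∈ M.Ep p) ∧
    Function.Bijective (M.act p u) ∧ L.map (M.act p u) = L'

/-- There are at most `B` classes of Galois stable lattices between `p ^ n T` and `T` in
`V_p ^ ι`. -/
def AtMost (p : ℕ) [Fact p.Prime] (ι : Type) [Fintype ι] (n B : ℕ) : Prop :=
  ∀ 𝓕 : Finset (Submodule ℤ_[p] (M.Vp p ι)), (∀ L ∈ 𝓕, M.Between p (p ^ n) L) →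
    (∀ L ∈ 𝓕, ∀ L' ∈ 𝓕, M.IsoAt p L L' → L = L') → 𝓕.card ≤ B

/-- There are at least `B` classes of Galois stable lattices between `p ^ n T` and `T` in
`V_p ^ ι`. -/
def AtLeast (p : ℕ) [Fact p.Prime] (ι : Type) [Fintype ι] (n B : ℕ) : Prop :=
  ∃ 𝓕 : Finset (Submodule ℤ_[p] (M.Vp p ι)), (∀ L ∈ 𝓕, M.Between p (p ^ n) L) ∧
    (∀ L ∈ 𝓕, ∀ L' ∈ 𝓕, M.IsoAt p L L' → L = L') ∧ 𝓕.card = B

/-- A family of lattices, one for every prime: an integral structure on `M ^ ι`. -/
abbrev Family (ι : Type) : Type := (p : ℕ) → [Fact p.Prime] → Submodule ℤ_[p] (M.Vp p ι)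

/-- Two integral structures on `M ^ ι` are isomorphic: some `u` in `GL_ι(E)` maps one to the
other at all primes. -/
def Iso {ι : Type} [Fintype ι] [DecidableEq ι] (L L' : M.Family ι) : Prop :=
  ∃ u u' : Matrix ι ι M.E, u * u' = 1 ∧ u' * u = 1 ∧
    ∀ (p : ℕ) [Fact p.Prime], (L p).map (M.act p fun i j => M.α p (u i j)) = L' p

/-- There are at most `B` isomorphism classes of integral structures on `M ^ ι` between `X T` and
`T` at all primes. -/
def GlobalAtMost (ι : Type) [Fintype ι] [DecidableEq ι] (X B : ℕ) : Prop :=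
  ∀ 𝓕 : Finset (M.Family ι), (∀ L ∈ 𝓕, ∀ (p : ℕ) [Fact p.Prime], M.Between p X (L p)) →
    (∀ L ∈ 𝓕, ∀ L' ∈ 𝓕, M.Iso L L' → L = L') → 𝓕.card ≤ B

end IntegralMotive

section Proofs

open IntegralMotive

variable (p : ℕ) [Fact p.Prime]

/-- the algebra generated by `E` acting on `V_p` -/
noncomputable def EE : Subalgebra ℚ_[p] (Module.End ℚ_[p] (Fin M.N → ℚ_[p])) :=
  (Algebra.adjoin ℚ_[p] (Set.range (M.α p))).map
    (Matrix.toLinAlgEquiv' (R := ℚ_[p]) (n := Fin M.N)).toAlgHom

/-- the Galois operators -/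
noncomputable def galHom : Γ →* Module.End ℚ_[p] (Fin M.N → ℚ_[p]) where
  toFun γ := Matrix.toLin' (rat (M.ρ p γ))
  map_one' := by
    rw [map_one]
    unfold rat
    rw [Units.val_one, Matrix.map_one _ (map_zero _) (map_one _), Matrix.toLin'_one]
    rfl
  map_mul' γ γ' := by
    rw [map_mul]
    unfold rat
    rw [Units.val_mul, Matrix.map_mul, Matrix.toLin'_mul]
    rfl

theorem mem_EE_iff (X : Matrix (Fin M.N) (Fin M.N) ℚ_[p]) :
    Matrix.toLin' X ∈ EE M p ↔ X ∈ M.Ep p := by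
  have h1 : Subalgebra.toSubmodule (Algebra.adjoin ℚ_[p] (Set.range (M.α p))) = M.Ep p := by
    rw [Algebra.adjoin_eq_span_of_subset]
    · rfl
    · have : (Submonoid.closure (Set.range (M.α p)) : Set _) = Set.range (M.α p) := by
        have h2 : Set.range (M.α p) = ((MonoidHom.mrange
            ((M.α p : M.E →+* Matrix (Fin M.N) (Fin M.N) ℚ_[p]) :
              M.E →* Matrix (Fin M.N) (Fin M.N) ℚ_[p]) :
            Submonoid (Matrix (Fin M.N) (Fin M.N) ℚ_[p])) :
              Set (Matrix (Fin M.N) (Fin M.N) ℚ_[p])) := by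
          ext x
          simp
        rw [h2, Submonoid.closure_eq]
      rw [this]
      exact Submodule.subset_span
  rw [← h1, Subalgebra.mem_toSubmodule]
  unfold EE
  rw [Subalgebra.mem_map]
  constructor
  · rintro ⟨Y, hY, hYX⟩
    have : Y = X := by
      apply Matrix.toLin'.injective
      exact hYX
    rwa [← this]
  · intro h
    exact ⟨X, h, rfl⟩

theorem commute_EE {γ : Γ} {e : Module.End ℚ_[p] (Fin M.N → ℚ_[p])} (he : e ∈ EE M p) :
    Commute e (galHom M p γ) := by
  obtain ⟨X, rfl⟩ := Matrix.toLin'.surjective e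
  rw [mem_EE_iff] at he
  have hX : Commute X (rat (M.ρ p γ)) := by
    induction he using Submodule.span_induction with
    | mem x hx =>
      obtain ⟨e, rfl⟩ := hx
      exact M.commute p e γ
    | zero => exact Commute.zero_left _
    | add x y _ _ hx hy => exact hx.add_left hy
    | smul c x _ hx => exact hx.smul_left c
  change Matrix.toLin' X * Matrix.toLin' (rat (M.ρ p γ)) =
    Matrix.toLin' (rat (M.ρ p γ)) * Matrix.toLin' X
  rw [Module.End.mul_eq_comp, Module.End.mul_eq_comp, ← Matrix.toLin'_mul, ← Matrix.toLin'_mul,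
    hX.eq]

theorem semisimple_EE : IsSemisimpleModule (EE M p) (Fin M.N → ℚ_[p]) := by
  refine @IsSemisimpleModule.mk _ _ _ _ _ ⟨fun W => ?_⟩
  obtain ⟨W', hW', hc⟩ := M.semisimple p (W.restrictScalars ℚ_[p]) (by
    rintro _ ⟨e, rfl⟩ x hx
    exact W.smul_mem (⟨Matrix.toLin' (M.α p e), (mem_EE_iff M p _).2
      (Submodule.subset_span ⟨e, rfl⟩)⟩ : EE M p) hx)
  have hstab : ∀ a ∈ EE M p, ∀ x ∈ W', a x ∈ W' := by
    intro a ha
    obtain ⟨X, rfl⟩ := Matrix.toLin'.surjective a
    rw [mem_EE_iff] at ha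
    induction ha using Submodule.span_induction with
    | mem x hx => exact fun y hy => hW' x hx y hy
    | zero =>
      intro x _
      simp
    | add x y _ _ hx hy =>
      intro z hz
      rw [map_add]
      exact W'.add_mem (hx z hz) (hy z hz)
    | smul c x _ hx =>
      intro z hz
      rw [map_smul]
      exact W'.smul_mem c (hx z hz)
  refine ⟨{ carrier := W'
            add_mem' := W'.add_mem
            zero_mem' := W'.zero_mem
            smul_mem' := fun a x hx => hstab a.1 a.2 x hx }, ?_⟩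
  rw [isCompl_iff] at hc ⊢
  constructor
  · rw [Submodule.disjoint_def]
    intro x hx hx'
    exact (Submodule.disjoint_def.1 hc.1) x hx hx'
  · rw [codisjoint_iff, eq_top_iff]
    intro x _
    have h3 : x ∈ W.restrictScalars ℚ_[p] ⊔ W' := by rw [codisjoint_iff.1 hc.2]; trivial
    obtain ⟨y, hy, z, hz, rfl⟩ := Submodule.mem_sup.1 h3
    exact Submodule.add_mem_sup hy hz

/-- the standard lattice -/
noncomputable def stdT (N : ℕ) : Submodule ℤ_[p] (Fin N → ℚ_[p]) where
  carrier := {x | ∀ j, ‖x j‖ ≤ 1}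
  add_mem' := by
    intro x y hx hy j
    exact (Padic.nonarchimedean _ _).trans (max_le (hx j) (hy j))
  zero_mem' := by
    intro j
    simp
  smul_mem' := by
    intro c x hx j
    have hc : ‖(c : ℚ_[p])‖ ≤ 1 := c.2
    change ‖(c : ℚ_[p]) * x j‖ ≤ 1
    rw [norm_mul]
    exact mul_le_one₀ hc (norm_nonneg _) (hx j)

theorem isLat_stdT (N : ℕ) : IsLat (stdT p N) := by
  constructor
  · refine ⟨1, fun x hx => ?_⟩
    rw [pi_norm_le_iff_of_nonneg zero_le_one]
    exact hx
  · exact ⟨1, one_pos, fun x hx j => (norm_le_pi_norm x j).trans hx⟩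

theorem stdT_stable (γ : Γ) (x : Fin M.N → ℚ_[p]) (hx : x ∈ stdT p M.N) :
    (rat (M.ρ p γ)).mulVec x ∈ stdT p M.N := by
  intro i
  have h1 : (rat (M.ρ p γ)).mulVec x i =
      ∑ j, (((M.ρ p γ : GL (Fin M.N) ℤ_[p]) : Matrix (Fin M.N) (Fin M.N) ℤ_[p]) i j : ℚ_[p]) * x j :=
    rfl
  rw [h1]
  have h2 : (fun _ : Fin M.N => ∑ j,
      (((M.ρ p γ : GL (Fin M.N) ℤ_[p]) : Matrix (Fin M.N) (Fin M.N) ℤ_[p]) i j : ℚ_[p]) * x j) ∈
      stdT p M.N := by
    have h3 : (fun _ : Fin M.N => ∑ j,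
        (((M.ρ p γ : GL (Fin M.N) ℤ_[p]) : Matrix (Fin M.N) (Fin M.N) ℤ_[p]) i j : ℚ_[p]) * x j) =
        ∑ j, (((M.ρ p γ : GL (Fin M.N) ℤ_[p]) : Matrix (Fin M.N) (Fin M.N) ℤ_[p]) i j) •
          (fun _ : Fin M.N => x j) := by
      funext k
      simp only [Finset.sum_apply, Pi.smul_apply]
      rfl
    rw [h3]
    exact Submodule.sum_mem _ fun j _ => Submodule.smul_mem _ _ fun _ => hx j
  exact h2 i

theorem full_iff : Full (EE M p) (MonoidHom.mrange (galHom M p) : Set _) ↔ M.TateAt p := by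
  constructor
  · rintro ⟨h1, h2⟩
    refine ⟨?_, ?_⟩
    · intro X hX
      rw [← mem_EE_iff]
      apply h1
      rintro _ ⟨γ, rfl⟩
      change Matrix.toLin' (rat (M.ρ p γ)) * Matrix.toLin' X =
        Matrix.toLin' X * Matrix.toLin' (rat (M.ρ p γ))
      rw [Module.End.mul_eq_comp, Module.End.mul_eq_comp, ← Matrix.toLin'_mul,
        ← Matrix.toLin'_mul, (hX γ).eq]
    · intro W hW
      obtain ⟨W', h3, h4⟩ := h2 W (by
        rintro _ ⟨γ, rfl⟩ x hx
        exact hW _ ⟨γ, rfl⟩ x hx)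
      refine ⟨W', ?_, h4⟩
      rintro _ ⟨γ, rfl⟩ x hx
      exact h3 _ ⟨γ, rfl⟩ x hx
  · rintro ⟨h1, h2⟩
    refine ⟨?_, ?_⟩
    · intro φ hφ
      obtain ⟨X, rfl⟩ := Matrix.toLin'.surjective φ
      rw [mem_EE_iff]
      apply h1
      intro γ
      have h3 := hφ _ ⟨γ, rfl⟩
      change Matrix.toLin' (rat (M.ρ p γ)) * Matrix.toLin' X =
        Matrix.toLin' X * Matrix.toLin' (rat (M.ρ p γ)) at h3
      rw [Module.End.mul_eq_comp, Module.End.mul_eq_comp, ← Matrix.toLin'_mul,
        ← Matrix.toLin'_mul] at h3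
      exact Matrix.toLin'.injective h3
    · intro W hW
      obtain ⟨W', h3, h4⟩ := h2 W (by
        rintro _ ⟨γ, rfl⟩ x hx
        exact hW _ ⟨γ, rfl⟩ x hx)
      refine ⟨W', ?_, h4⟩
      rintro _ ⟨γ, rfl⟩ x hx
      exact h3 _ ⟨γ, rfl⟩ x hx

theorem act_apply {ι : Type} [Fintype ι] (u : ι → ι → Matrix (Fin M.N) (Fin M.N) ℚ_[p])
    (x : M.Vp p ι) (i : ι) : M.act p u x i = ∑ j, (u i j).mulVec (x j) := rfl

theorem act_mul {ι : Type} [Fintype ι] [DecidableEq ι] (u v : Matrix ι ι M.E) (x : M.Vp p ι) :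
    M.act p (fun i j => M.α p (u i j)) (M.act p (fun i j => M.α p (v i j)) x) =
      M.act p (fun i j => M.α p ((u * v) i j)) x := by
  funext i
  simp only [act_apply, Matrix.mulVec_sum, Matrix.mulVec_mulVec]
  rw [Finset.sum_comm]
  refine Finset.sum_congr rfl fun k _ => ?_
  rw [← Matrix.sum_mulVec]
  congr 1
  rw [Matrix.mul_apply, map_sum]
  simp only [map_mul]

theorem act_one {ι : Type} [Fintype ι] [DecidableEq ι] (x : M.Vp p ι) :
    M.act p (fun i j => M.α p ((1 : Matrix ι ι M.E) i j)) x = x := by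
  funext i
  rw [act_apply, Finset.sum_eq_single i]
  · rw [Matrix.one_apply_eq, map_one, Matrix.one_mulVec]
  · intro j _ hj
    rw [Matrix.one_apply_ne hj.symm, map_zero, Matrix.zero_mulVec]
  · intro h
    exact absurd (Finset.mem_univ i) h

/-- the lower bound -/
theorem lower (h : ¬ M.TateAt p) : ∃ δ : ℕ, ∀ r n : ℕ,
    M.AtLeast p (Fin r × Fin 2) n ((n - δ).choose r) := by
  classical
  rw [← full_iff] at h
  have := semisimple_EE M p
  obtain ⟨δ, hδ⟩ := core_lower (EE M p) (MonoidHom.mrange (galHom M p) : Set _) (by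
    rintro _ ⟨γ, rfl⟩ e he
    exact commute_EE M p he) (isLat_stdT p M.N) (by
    rintro _ ⟨γ, rfl⟩ x hx
    exact stdT_stable M p γ x hx) h
  refine ⟨δ, fun r n => ?_⟩
  obtain ⟨𝓕, hcard, h1, h2⟩ := hδ r n
  let c : M.Vp p (Fin r × Fin 2) ≃ₗ[ℤ_[p]] (Fin r → Fin 2 → Fin M.N → ℚ_[p]) :=
    LinearEquiv.curry ℤ_[p] (Fin M.N → ℚ_[p]) (Fin r) (Fin 2)
  have hc : ∀ x i j, c x i j = x (i, j) := fun x i j => rfl
  have hcs : ∀ x i, c.symm x i = x i.1 i.2 := fun x i => rfl
  let Φ : Submodule ℤ_[p] (Fin r → Fin 2 → Fin M.N → ℚ_[p]) ↪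
      Submodule ℤ_[p] (M.Vp p (Fin r × Fin 2)) :=
    ⟨fun L => L.comap (c : M.Vp p (Fin r × Fin 2) →ₗ[ℤ_[p]] (Fin r → Fin 2 → Fin M.N → ℚ_[p])),
      Submodule.comap_injective_of_surjective c.surjective⟩
  refine ⟨𝓕.map Φ, ?_, ?_, ?_⟩
  · intro L hL
    obtain ⟨L', hL', rfl⟩ := Finset.mem_map.1 hL
    obtain ⟨h3, h4, h5⟩ := h1 L' hL'
    refine ⟨?_, ?_, ?_⟩
    · intro x hx
      change c (((p ^ n : ℕ) : ℚ_[p]) • x) ∈ L'
      have h6 : c (((p ^ n : ℕ) : ℚ_[p]) • x) = ((p : ℚ_[p]) ^ n) • c x := by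
        rw [Nat.cast_pow]
        rfl
      rw [h6]
      exact h3 _ fun i j k => hx (i, j) k
    · intro x hx i j
      exact h4 _ hx i.1 i.2 j
    · intro γ x hx
      exact h5 _ ⟨γ, rfl⟩ _ hx
  · intro L hL L' hL' hiso
    obtain ⟨L1, hL1, rfl⟩ := Finset.mem_map.1 hL
    obtain ⟨L2, hL2, rfl⟩ := Finset.mem_map.1 hL'
    obtain ⟨u, hu1, hu2, hu3⟩ := hiso
    have key : L1 = L2 := by
      refine h2 L1 hL1 L2 hL2 (c.toLinearMap ∘ₗ (M.act p u) ∘ₗ c.symm.toLinearMap) ?_ ?_ ?_
      · exact c.injective.comp (hu2.1.comp c.symm.injective)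
      · intro d x
        have h7 : ∀ y : M.Vp p (Fin r × Fin 2), M.act p u (fun i => d (y i)) =
            fun i => d (M.act p u y i) := by
          intro y
          funext i
          rw [act_apply, act_apply, map_sum]
          refine Finset.sum_congr rfl fun j _ => ?_
          have h8 := map_smul d (⟨Matrix.toLin' (u i j), (mem_EE_iff M p _).2 (hu1 i j)⟩ : EE M p)
            (y j)
          exact h8.symm
        change c (M.act p u (c.symm (d • x))) = d • c (M.act p u (c.symm x))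
        have h9 := h7 (c.symm x)
        have h10 : c.symm (d • x) = fun i => d (c.symm x i) := rfl
        rw [h10, h9]
        rfl
      · ext x
        constructor
        · rintro ⟨y, hy, rfl⟩
          have h11 : M.act p u (c.symm y) ∈ (Φ L1).map (M.act p u) :=
            ⟨c.symm y, by
              change c (c.symm y) ∈ L1
              rw [c.apply_symm_apply]
              exact hy, rfl⟩
          rw [hu3] at h11
          exact h11
        · intro hx
          have h12 : c.symm x ∈ Φ L2 := by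
            change c (c.symm x) ∈ L2
            rw [c.apply_symm_apply]
            exact hx
          rw [← hu3] at h12
          obtain ⟨y, hy, hyx⟩ := h12
          refine ⟨c y, hy, ?_⟩
          change c (M.act p u (c.symm (c y))) = x
          rw [c.symm_apply_apply, hyx, c.apply_symm_apply]
    rw [key]
  · rw [Finset.card_map]
    exact hcard

/-- the upper bound -/
theorem upper (h : M.TateAt p) (ι : Type) [Fintype ι] : ∃ B : ℕ, ∀ n : ℕ, M.AtMost p ι n B := by
  classical
  have hp0 : (p : ℚ_[p]) ≠ 0 := by exact_mod_cast (Fact.out : p.Prime).ne_zero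
  have hfull := (full_iff M p).2 h
  obtain ⟨B, hB⟩ := core_upper (MonoidHom.mrange (galHom M p)) hfull.2 ι
  refine ⟨B, fun n 𝓕 h1 h2 => hB 𝓕 ?_ ?_⟩
  · intro L hL
    obtain ⟨h3, h4, h5⟩ := h1 L hL
    refine ⟨⟨⟨1, fun x hx => ?_⟩, ⟨((p : ℝ)⁻¹) ^ n, ?_, fun x hx => ?_⟩⟩, ?_⟩
    · rw [pi_norm_le_iff_of_nonneg zero_le_one]
      intro i
      rw [pi_norm_le_iff_of_nonneg zero_le_one]
      exact h4 x hx i
    · have : (0 : ℝ) < p := by exact_mod_cast (Fact.out : p.Prime).pos
      positivity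
    · have h6 := h3 (((p : ℚ_[p]) ^ n)⁻¹ • x) (by
        intro i j
        rw [Pi.smul_apply, Pi.smul_apply, norm_smul, norm_inv, norm_pow, Padic.norm_p]
        have h7 : ‖x i j‖ ≤ ((p : ℝ)⁻¹) ^ n :=
          (norm_le_pi_norm (x i) j).trans ((norm_le_pi_norm x i).trans hx)
        have h8 : (0 : ℝ) < ((p : ℝ)⁻¹) ^ n := by
          have : (0 : ℝ) < p := by exact_mod_cast (Fact.out : p.Prime).pos
          positivity
        rw [inv_mul_le_iff₀ h8, mul_one]
        exact h7)
      rwa [Nat.cast_pow, smul_smul, mul_inv_cancel₀ (pow_ne_zero _ hp0), one_smul] at h6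
    · rintro _ ⟨γ, rfl⟩ x hx
      exact h5 γ x hx
  · intro L hL L' hL' u hu huL
    apply h2 L hL L' hL'
    let ublk : ι → ι → Module.End ℚ_[p] (Fin M.N → ℚ_[p]) := fun i j =>
      LinearMap.proj i ∘ₗ (u : (ι → Fin M.N → ℚ_[p]) →ₗ[ℚ_[p]] (ι → Fin M.N → ℚ_[p])) ∘ₗ
        LinearMap.single ℚ_[p] (fun _ : ι => Fin M.N → ℚ_[p]) j
    have hblk : ∀ i j, ublk i j ∈ EE M p := by
      intro i j
      apply hfull.1
      rintro _ ⟨γ, rfl⟩
      refine LinearMap.ext fun x => ?_
      have h3 := congrFun (hu _ ⟨γ, rfl⟩ (Pi.single j x)) i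
      change galHom M p γ (u (Pi.single j x) i) = u (Pi.single j (galHom M p γ x)) i
      rw [← h3]
      have h9 : (fun i => (galHom M p γ) ((Pi.single j x : ι → Fin M.N → ℚ_[p]) i)) =
          (Pi.single j (galHom M p γ x) : ι → Fin M.N → ℚ_[p]) := by
        funext k
        by_cases hk : k = j
        · subst hk
          simp
        · rw [Pi.single_eq_of_ne hk, Pi.single_eq_of_ne hk, map_zero]
      rw [h9]
    have hact : ∀ x, M.act p (fun i j => LinearMap.toMatrix' (ublk i j)) x = u x := by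
      intro x
      funext i
      rw [act_apply]
      have h4 : u x = ∑ j, u (Pi.single j (x j)) := by
        rw [← map_sum, Finset.univ_sum_single]
      rw [h4, Finset.sum_apply]
      refine Finset.sum_congr rfl fun j _ => ?_
      rw [← Matrix.toLin'_apply, Matrix.toLin'_toMatrix']
      rfl
    refine ⟨fun i j => LinearMap.toMatrix' (ublk i j), ?_, ?_, ?_⟩
    · intro i j
      rw [← mem_EE_iff, Matrix.toLin'_toMatrix']
      exact hblk i j
    · have h5 : (M.act p fun i j => LinearMap.toMatrix' (ublk i j) : _ → _) = u := funext hact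
      rw [h5]
      exact u.bijective
    · rw [← huL]
      ext x
      constructor
      · rintro ⟨y, hy, rfl⟩
        exact ⟨y, hy, (hact y).symm⟩
      · rintro ⟨y, hy, rfl⟩
        exact ⟨y, hy, hact y⟩

/-- extension of a lattice at `p` to an integral structure by the standard lattice -/
noncomputable def extendF {ι : Type} (L : Submodule ℤ_[p] (M.Vp p ι)) : M.Family ι :=
  fun q _ => by
    classical
    exact if h : p = q then by subst h; exact L
      else Submodule.pi Set.univ fun _ => stdT q M.N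

theorem extendF_self {ι : Type} (L : Submodule ℤ_[p] (M.Vp p ι)) : extendF M p L p = L := by
  unfold extendF
  rw [dif_pos rfl]

theorem extendF_ne {ι : Type} (L : Submodule ℤ_[p] (M.Vp p ι)) (q : ℕ) [Fact q.Prime]
    (h : p ≠ q) : extendF M p L q = Submodule.pi Set.univ fun _ => stdT q M.N := by
  unfold extendF
  rw [dif_neg h]

theorem between_std (q : ℕ) [Fact q.Prime] (ι : Type) (X : ℕ) :
    M.Between q X (Submodule.pi Set.univ fun _ : ι => stdT q M.N) := by
  refine ⟨?_, ?_, ?_⟩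
  · intro x hx i _ j
    rw [Pi.smul_apply, Pi.smul_apply, norm_smul]
    have h1 : ‖(X : ℚ_[q])‖ ≤ 1 := by
      have := Padic.norm_int_le_one (p := q) (X : ℤ)
      simpa using this
    exact mul_le_one₀ h1 (norm_nonneg _) (hx i j)
  · intro x hx i j
    exact hx i (Set.mem_univ i) j
  · intro γ x hx i hi
    exact stdT_stable M q γ (x i) (hx i hi)

/-- local growth bounds global growth from below -/
theorem global_of_local (r n B : ℕ) (B' : ℕ) (h : M.AtLeast p (Fin r × Fin 2) n B)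
    (hg : M.GlobalAtMost (Fin r × Fin 2) (p ^ n) B') : B ≤ B' := by
  classical
  obtain ⟨𝓕, h1, h2, rfl⟩ := h
  have hinj : Function.Injective (extendF M p (ι := Fin r × Fin 2)) := by
    intro L L' hLL
    rw [← extendF_self M p L, hLL, extendF_self]
  have h3 := hg (𝓕.map ⟨extendF M p, hinj⟩) ?_ ?_
  · rwa [Finset.card_map] at h3
  · intro L hL q _
    obtain ⟨L', hL', rfl⟩ := Finset.mem_map.1 hL
    by_cases hpq : p = q
    · subst hpq
      change M.Between p (p ^ n) (extendF M p L' p)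
      rw [extendF_self]
      exact h1 L' hL'
    · change M.Between q (p ^ n) (extendF M p L' q)
      rw [extendF_ne M p L' q hpq]
      exact between_std M q _ _
  · intro L hL L' hL' hiso
    obtain ⟨L1, hL1, rfl⟩ := Finset.mem_map.1 hL
    obtain ⟨L2, hL2, rfl⟩ := Finset.mem_map.1 hL'
    obtain ⟨u, u', huu', hu'u, hu⟩ := hiso
    have h4 := hu p
    change (extendF M p L1 p).map _ = extendF M p L2 p at h4
    rw [extendF_self, extendF_self] at h4
    have h5 : L1 = L2 := by
      apply h2 L1 hL1 L2 hL2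
      refine ⟨fun i j => M.α p (u i j), fun i j => Submodule.subset_span ⟨u i j, rfl⟩, ?_, h4⟩
      constructor
      · intro x y hxy
        have h6 := act_mul M p u' u x
        have h7 := act_mul M p u' u y
        rw [hxy, h7, hu'u, act_one, act_one] at h6
        exact h6.symm
      · intro y
        refine ⟨M.act p (fun i j => M.α p (u' i j)) y, ?_⟩
        rw [act_mul, huu', act_one]
    rw [h5]

theorem choose_lower (r m : ℕ) : ((m + 1 - r : ℕ) : ℝ) ^ r ≤ r.factorial * (m.choose r : ℝ) := by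
  have := Nat.pow_sub_le_descFactorial m r
  rw [Nat.descFactorial_eq_factorial_mul_choose] at this
  exact_mod_cast this

/-- binomial coefficients are not `o(n ^ r)` -/
theorem choose_not_small (δ r : ℕ) (c : ℝ) (hc : 0 < c) :
    ∃ ε : ℝ, 0 < ε ∧ ∀ n0 : ℕ, ∃ n ≥ n0, ε * (c * n) ^ r < ((n - δ).choose r : ℝ) := by
  refine ⟨((2 : ℝ) * (r.factorial * (2 * c) ^ r))⁻¹, by positivity, ?_⟩
  intro n0
  refine ⟨n0 + 2 * (δ + r) + 1, by omega, ?_⟩
  set n := n0 + 2 * (δ + r) + 1 with hn
  have h1 := choose_lower r (n - δ)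
  have h2 : (n : ℝ) / 2 ≤ ((n - δ + 1 - r : ℕ) : ℝ) := by
    have h3 : n ≤ 2 * (n - δ + 1 - r) := by omega
    have h4 : (n : ℝ) ≤ 2 * ((n - δ + 1 - r : ℕ) : ℝ) := by exact_mod_cast h3
    linarith
  have hn0 : (0 : ℝ) < n := by
    have : 0 < n := by omega
    exact_mod_cast this
  have h5 : ((n : ℝ) / 2) ^ r ≤ r.factorial * ((n - δ).choose r : ℝ) := by
    refine le_trans ?_ h1
    gcongr
  have h6 : (c * n) ^ r = (2 * c) ^ r * ((n : ℝ) / 2) ^ r := by
    rw [← mul_pow]
    congr 1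
    ring
  have h7 : 0 < ((n : ℝ) / 2) ^ r := by positivity
  have hf : (0 : ℝ) < r.factorial := by exact_mod_cast r.factorial_pos
  have h8 : (((2 : ℝ) * (r.factorial * (2 * c) ^ r))⁻¹) * (c * n) ^ r =
      ((n : ℝ) / 2) ^ r / (2 * r.factorial) := by
    rw [h6]
    field_simp
  rw [h8, div_lt_iff₀ (by positivity)]
  nlinarith

end Proofs

/-- **Gap theorem for isogeny classes of motives and the Tate conjecture.**
(1) For every prime `p`: the Tate conjecture for the endomorphisms of `M` together with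
semisimplicity holds at `p` if and only if for every power `M ^ ι` the number of isomorphism classes
of Galois stable lattices between `p ^ n T` and `T` is bounded independently of `n`.
(2) If it fails at `p`, then there is a constant `δ` such that for all `r` and `n` the number of
classes for `M ^ (2 r)` is at least `binomial (n - δ) r`.
(3) If for one `r` the number of isomorphism classes of integral structures on `M ^ (2 r)` between
`X T` and `T` is `o ((log X) ^ r)`, then the Tate conjecture and semisimplicity hold for `M` at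
every prime. -/
theorem result {Γ : Type} [Group Γ] (M : IntegralMotive Γ) :
    (∀ (p : ℕ) [Fact p.Prime],
      (M.TateAt p ↔ ∀ (ι : Type) [Fintype ι], ∃ B : ℕ, ∀ n : ℕ, M.AtMost p ι n B) ∧
      (¬ M.TateAt p → ∃ δ : ℕ, ∀ r n : ℕ, M.AtLeast p (Fin r × Fin 2) n ((n - δ).choose r))) ∧
    ((∃ r : ℕ, ∀ ε : ℝ, 0 < ε → ∃ X₀ : ℕ, ∀ X : ℕ, X₀ ≤ X →
        ∃ B : ℕ, (B : ℝ) ≤ ε * (Real.log X) ^ r ∧ M.GlobalAtMost (Fin r × Fin 2) X B) →
      ∀ (p : ℕ) [Fact p.Prime], M.TateAt p) := by
  classical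
  refine ⟨fun p _ => ⟨⟨fun h ι _ => upper M p h ι, ?_⟩, lower M p⟩, ?_⟩
  · intro h
    by_contra hT
    obtain ⟨δ, hδ⟩ := lower M p hT
    obtain ⟨B, hB⟩ := h (Fin 1 × Fin 2)
    obtain ⟨𝓕, h1, h2, h3⟩ := hδ 1 (B + 1 + δ)
    have h4 := hB (B + 1 + δ) 𝓕 h1 h2
    rw [h3, Nat.add_sub_cancel, Nat.choose_one_right] at h4
    omega
  · rintro ⟨r, hr⟩ p _
    by_contra hT
    obtain ⟨δ, hδ⟩ := lower M p hT
    have hp1 : 1 < p := (Fact.out : p.Prime).one_lt
    have hlog : 0 < Real.log p := Real.log_pos (by exact_mod_cast hp1)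
    obtain ⟨ε, hε, hn⟩ := choose_not_small δ r (Real.log p) hlog
    obtain ⟨X₀, hX₀⟩ := hr ε hε
    obtain ⟨n, hnX, hlt⟩ := hn X₀
    obtain ⟨B, hB1, hB2⟩ := hX₀ (p ^ n) (hnX.trans (Nat.lt_pow_self hp1).le)
    have h1 := global_of_local M p r n _ B (hδ r n) hB2
    have h2 : Real.log ((p ^ n : ℕ) : ℝ) = Real.log p * n := by
      rw [Nat.cast_pow, Real.log_pow]
      ring
    rw [h2] at hB1
    have h3 : (((n - δ).choose r : ℕ) : ℝ) ≤ B := by exact_mod_cast h1
    linarith

end Pool.Agent.Results.MP_3703a7_ag.IsogenyClassGrowth
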