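import Pool.Agent.H850.OL.Explicit
import Pool.Agent.H850.LA.Cn

/-!
# MP_3703a7_ag: one place decides the Tate conjecture for all primes

The pure motives over a number field `F` are given by their realizations at all primes, the
polynomials of the Frobenius elements, the groups of morphisms over the algebraic closure, and the
Galois actions. We prove that the Tate conjecture for `Hom(X, Y)` over all finite extensions of `F`
can be decided with two Frobenius elements at one and the same place `v`, for all primes `p` prime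
to `v` at the same time, that almost all places `v` can be used, and we give an explicit criterion
for `v` in terms of the Frobenius polynomial. The monodromy group of the pair is assumed to be
connected over `F` at ONE prime; we prove that it is then connected at all primes (Serre).
-/

set_option autoImplicit false
set_option linter.unusedSectionVars false

namespace Pool.Agent.Results.MP_3703a7_ag.OnePlace

open NumberField Filter Topology IsDedekindDomain MeasureTheory
open Pool.Agent.W401.Cheb (GK IsFrob IsInert dens)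

/-- A matrix over `ℤ_p` viewed over `ℚ_p`. -/
noncomputable def rat {p : ℕ} [Fact p.Prime] {N : ℕ} (g : GL (Fin N) ℤ_[p]) :
    Matrix (Fin N) (Fin N) ℚ_[p] :=
  (g : Matrix (Fin N) (Fin N) ℤ_[p]).map (algebraMap ℤ_[p] ℚ_[p])

/-- A set of matrices acts semisimply: every stable subspace has a stable complement. -/
def ActSemisimply {p : ℕ} [Fact p.Prime] {N : ℕ} (S : Set (Matrix (Fin N) (Fin N) ℚ_[p])) : Prop :=
  ∀ W : Submodule ℚ_[p] (Fin N → ℚ_[p]), (∀ A ∈ S, ∀ x ∈ W, A.mulVec x ∈ W) →
    ∃ W' : Submodule ℚ_[p] (Fin N → ℚ_[p]), (∀ A ∈ S, ∀ x ∈ W', A.mulVec x ∈ W') ∧ IsCompl W W'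

/-- Pure (effective) motives over the number field `F`: a countable set of objects `X`, for every
prime `p` the continuous action of the absolute Galois group on a lattice `ℤ_p ^ n` in the `p`-adic
realization `X_p = ℚ_p ^ n`, `n = rank X`; a finite set of bad places; for the good places `v` the
characteristic polynomial `frob X v` of the geometric Frobenius, with integral coefficients and
independent of `p`, the realizations at the primes `p` prime to `v` being unramified at `v`; for two
objects the group `Hom X Y` of morphisms over the algebraic closure, on which Galois acts with open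
stabilisers, and the realization of a morphism as a linear map from `X_p` to `Y_p`, compatible with
the Galois actions. -/
structure Motives (F : Type) [Field F] [NumberField F] where
  Obj : Type
  countable : Countable Obj
  rank : Obj → ℕ
  ρ : ∀ (X : Obj) (p : ℕ) [Fact p.Prime], GK F →* GL (Fin (rank X)) ℤ_[p]
  cont : ∀ (X : Obj) (p : ℕ) [Fact p.Prime],
    Continuous fun σ => (ρ X p σ : Matrix (Fin (rank X)) (Fin (rank X)) ℤ_[p])
  bad : Obj → Set (HeightOneSpectrum (𝓞 F))
  bad_finite : ∀ X, (bad X).Finite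
  frob : Obj → HeightOneSpectrum (𝓞 F) → Polynomial ℤ
  unramified : ∀ (X : Obj) (p : ℕ) [Fact p.Prime], ∀ v ∉ bad X, (p : 𝓞 F) ∉ v.asIdeal →
    ∀ σ, IsInert v σ → ρ X p σ = 1
  charpoly : ∀ (X : Obj) (p : ℕ) [Fact p.Prime], ∀ v ∉ bad X, (p : 𝓞 F) ∉ v.asIdeal →
    ∀ σ, IsFrob v σ → (rat (ρ X p σ⁻¹)).charpoly = (frob X v).map (algebraMap ℤ ℚ_[p])
  Hom : Obj → Obj → Type
  [group : ∀ X Y, AddCommGroup (Hom X Y)]
  [galois : ∀ X Y, DistribMulAction (GK F) (Hom X Y)]
  isOpen_stabilizer : ∀ X Y (h : Hom X Y),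
    IsOpen (MulAction.stabilizer (GK F) h : Set (GK F))
  real : ∀ (X Y : Obj) (p : ℕ) [Fact p.Prime],
    Hom X Y →+ Matrix (Fin (rank Y)) (Fin (rank X)) ℚ_[p]
  equivariant : ∀ (X Y : Obj) (p : ℕ) [Fact p.Prime] (σ : GK F) (h : Hom X Y),
    real X Y p (σ • h) * rat (ρ X p σ) = rat (ρ Y p σ) * real X Y p h

attribute [instance] Motives.group Motives.galois

variable {F : Type} [Field F] [NumberField F]

/-- The integral polynomial `P` is regular: its roots are distinct, and no quotient of two different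
roots is a root of unity. -/
def Regular (P : Polynomial ℤ) : Prop :=
  (P.map (algebraMap ℤ (AlgebraicClosure ℚ))).roots.Nodup ∧
    ∀ a ∈ (P.map (algebraMap ℤ (AlgebraicClosure ℚ))).roots,
      ∀ b ∈ (P.map (algebraMap ℤ (AlgebraicClosure ℚ))).roots, ∀ m : ℕ, m ≠ 0 →
        a ^ m = b ^ m → a = b

namespace Motives

variable (M : Motives F) (X Y : M.Obj) (p : ℕ) [Fact p.Prime]

/-- The `p`-adic realization of `X` is a semisimple representation of the Galois group of `F`. -/
def Semisimple : Prop := ActSemisimply (Set.range fun σ => rat (M.ρ X p σ))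

/-- The linear map `φ` from `X_p` to `Y_p` commutes with the Galois element `σ`. -/
def Commutes (φ : Matrix (Fin (M.rank Y)) (Fin (M.rank X)) ℚ_[p]) (σ : GK F) : Prop :=
  φ * rat (M.ρ X p σ) = rat (M.ρ Y p σ) * φ

/-- `φ` is a homomorphism of representations of the absolute Galois group of `L`. -/
def HomOver (L : IntermediateField F (AlgebraicClosure F))
    (φ : Matrix (Fin (M.rank Y)) (Fin (M.rank X)) ℚ_[p]) : Prop :=
  ∀ σ ∈ L.fixingSubgroup, M.Commutes X Y p φ σ

/-- `φ` is a homomorphism of representations over some finite extension of `F`. -/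
def PotentialHom (φ : Matrix (Fin (M.rank Y)) (Fin (M.rank X)) ℚ_[p]) : Prop :=
  ∃ L : IntermediateField F (AlgebraicClosure F), FiniteDimensional F L ∧ M.HomOver X Y p L φ

/-- The Tate conjecture for `Hom(X, Y)` over `L`: every homomorphism of representations over `L` is
a `ℚ_p`-combination of morphisms of motives over `L`. -/
def TateOver (L : IntermediateField F (AlgebraicClosure F)) : Prop :=
  ∀ φ, M.HomOver X Y p L φ → φ ∈ Submodule.span ℚ_[p]
    (M.real X Y p '' {h | ∀ σ ∈ L.fixingSubgroup, σ • h = h})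

/-- The Tate conjecture for `Hom(X, Y)` at `p` over all finite extensions of `F`. -/
def Tate : Prop := ∀ L : IntermediateField F (AlgebraicClosure F), FiniteDimensional F L →
  M.TateOver X Y p L

/-- `φ` is a `ℚ_p`-combination of morphisms of motives over the algebraic closure. -/
def Algebraic (φ : Matrix (Fin (M.rank Y)) (Fin (M.rank X)) ℚ_[p]) : Prop :=
  φ ∈ Submodule.span ℚ_[p] (Set.range (M.real X Y p))

/-- `σ` acts trivially modulo `p ^ 2` on the lattice in `X_p`. -/
def ActsTrivially (σ : GK F) : Prop :=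
  ∃ a : Matrix (Fin (M.rank X)) (Fin (M.rank X)) ℤ_[p],
    (M.ρ X p σ : Matrix (Fin (M.rank X)) (Fin (M.rank X)) ℤ_[p]) = 1 + (p : ℤ_[p]) ^ 2 • a

/-- The value of a polynomial at the entries of the matrices of `σ` on both realizations. -/
noncomputable def value (P : MvPolynomial ((Fin (M.rank X) × Fin (M.rank X)) ⊕
    (Fin (M.rank Y) × Fin (M.rank Y))) ℚ_[p]) (σ : GK F) : ℚ_[p] :=
  MvPolynomial.eval (Sum.elim (fun q => rat (M.ρ X p σ) q.1 q.2)
    fun q => rat (M.ρ Y p σ) q.1 q.2) P

/-- The `p`-adic monodromy group of the pair is connected over `F`: a polynomial in the matrix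
entries which vanishes on the image of the Galois group of some finite extension of `F` vanishes on
the image of the Galois group of `F`. -/
def Connected : Prop :=
  ∀ (P : MvPolynomial ((Fin (M.rank X) × Fin (M.rank X)) ⊕
      (Fin (M.rank Y) × Fin (M.rank Y))) ℚ_[p])
    (L : IntermediateField F (AlgebraicClosure F)), FiniteDimensional F L →
      (∀ σ ∈ L.fixingSubgroup, M.value X Y p P σ = 0) → ∀ σ, M.value X Y p P σ = 0

/-- For one prime `q`, the realizations `X_q`, `Y_q` are semisimple and the `q`-adic monodromy group of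
the pair is connected over `F`. -/
def ConnectedOnce : Prop :=
  ∃ (q : ℕ) (_ : Fact q.Prime), M.Semisimple X q ∧ M.Semisimple Y q ∧ M.Connected X Y q

/-- The pair of Galois elements `α`, `β` decides about `(X, Y)` at `p`: the maps from `X_p` to `Y_p`
commuting with `α` and `β` are the homomorphisms of representations over finite extensions of `F`,
and the Tate conjecture for `Hom(X, Y)` over all finite extensions of `F` holds if and only if all
these maps are algebraic. -/
def Decides (α β : GK F) : Prop :=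
  (∀ φ, M.Commutes X Y p φ α ∧ M.Commutes X Y p φ β ↔ M.PotentialHom X Y p φ) ∧
  (M.Tate X Y p ↔
    ∀ φ, M.Commutes X Y p φ α → M.Commutes X Y p φ β → M.Algebraic X Y p φ)

/-- If the monodromy group of the pair is connected over `F` at one prime, then the powers `α ^ k`,
`β ^ k`, `k ≥ 1`, decide about `(X, Y)` at all primes `p` prime to `v` for which the realizations of
`X` and `Y` are semisimple. -/
def DecidesAll (v : HeightOneSpectrum (𝓞 F)) (α β : GK F) : Prop :=
  M.ConnectedOnce X Y → ∀ (p : ℕ) [Fact p.Prime], (p : 𝓞 F) ∉ v.asIdeal → M.Semisimple X p →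
    M.Semisimple Y p → ∀ k : ℕ, k ≠ 0 → M.Decides X Y p (α ^ k) (β ^ k)

end Motives

section Proofs

open Pool.Agent.H850.TF Pool.Agent.H850.RG

variable (M : Motives F) (X Y : M.Obj) (p : ℕ) [Fact p.Prime]

theorem exists_field {U : Subgroup (GK F)} (hU : IsOpen (U : Set (GK F))) :
    ∃ L : IntermediateField F (AlgebraicClosure F), FiniteDimensional F L ∧
      L.fixingSubgroup ≤ U := by
  have h1 : (U : Set (GK F)) ∈ 𝓝 (1 : GK F) := hU.mem_nhds U.one_mem
  rw [krullTopology_mem_nhds_one_iff] at h1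
  exact h1

theorem commutes_iff (φ : Matrix (Fin (M.rank Y)) (Fin (M.rank X)) ℚ_[p]) (σ : GK F) :
    M.Commutes X Y p φ σ ↔ φ * Pool.Agent.H850.TF.rat (M.ρ X p) σ = Pool.Agent.H850.TF.rat (M.ρ Y p) σ * φ := Iff.rfl

theorem trivially_iff (σ : GK F) : M.ActsTrivially X p σ ↔ σ ∈ U1 (M.ρ X p) := Iff.rfl

theorem descent {φ : Matrix (Fin (M.rank Y)) (Fin (M.rank X)) ℚ_[p]}
    (hφ : M.Algebraic X Y p φ) (L : IntermediateField F (AlgebraicClosure F))
    (hL : M.HomOver X Y p L φ) :
    φ ∈ Submodule.span ℚ_[p] (M.real X Y p '' {h | ∀ σ ∈ L.fixingSubgroup, σ • h = h}) :=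
  descent_gen (M.ρ X p) (M.ρ Y p) (M.isOpen_stabilizer X Y) (M.real X Y p)
    (fun σ h => M.equivariant X Y p σ h) hφ L.fixingSubgroup hL

/-- potential homomorphisms commute with the elements acting trivially modulo `p ^ 2` -/
theorem commutes_of_potential {φ : Matrix (Fin (M.rank Y)) (Fin (M.rank X)) ℚ_[p]}
    (hφ : M.PotentialHom X Y p φ) {σ : GK F} (hσ : M.ActsTrivially X p σ)
    (hσ' : M.ActsTrivially Y p σ) : M.Commutes X Y p φ σ := by
  obtain ⟨L, hL, hLφ⟩ := hφ
  exact off_of_open' (M.ρ X p) (M.ρ Y p) φ L.fixingSubgroup_isOpen hLφ hσ hσ'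

/-- algebraic maps are potential homomorphisms -/
theorem potential_of_algebraic {φ : Matrix (Fin (M.rank Y)) (Fin (M.rank X)) ℚ_[p]}
    (hφ : M.Algebraic X Y p φ) {σ : GK F} (hσ : M.ActsTrivially X p σ)
    (hσ' : M.ActsTrivially Y p σ) : M.Commutes X Y p φ σ := by
  unfold Motives.Algebraic at hφ
  induction hφ using Submodule.span_induction with
  | mem A hA =>
    obtain ⟨h, rfl⟩ := hA
    obtain ⟨L, hL, hLe⟩ := exists_field (M.isOpen_stabilizer X Y h)
    refine commutes_of_potential M X Y p ⟨L, hL, fun τ hτ => ?_⟩ hσ hσ'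
    have h1 : τ • h = h := hLe hτ
    have h2 := M.equivariant X Y p τ h
    rw [h1] at h2
    exact h2
  | zero =>
    rw [commutes_iff, Matrix.zero_mul, Matrix.mul_zero]
  | add A B _ _ hA hB =>
    rw [commutes_iff] at hA hB ⊢
    rw [Matrix.add_mul, Matrix.mul_add, hA, hB]
  | smul c A _ hA =>
    rw [commutes_iff] at hA ⊢
    rw [Matrix.smul_mul, Matrix.mul_smul, hA]

theorem connected_iff : M.Connected X Y p ↔ ∀ σ, σ ∈ conn (dsm (M.ρ X p) (M.ρ Y p)) := by
  constructor
  · intro h σ
    have h1 : ConnOn (dsm (M.ρ X p) (M.ρ Y p)) ⊤ := by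
      refine connOn_of_poly (dsm (M.ρ X p) (M.ρ Y p)) _ fun P V hV hPV u _ => ?_
      obtain ⟨Q, hQ⟩ := exists_val2 (M.ρ X p) (M.ρ Y p) P
      obtain ⟨L, hL, hLV⟩ := exists_field hV
      rw [hQ]
      refine h Q L hL (fun σ hσ => ?_) u
      have h1 := hPV σ (hLV hσ)
      rw [hQ] at h1
      exact h1
    exact h1.le trivial
  · intro h P L hL hP σ
    exact connOn_conn (dsm (M.ρ X p) (M.ρ Y p)) _ (val2_mem (M.ρ X p) (M.ρ Y p) P)
      L.fixingSubgroup L.fixingSubgroup_isOpen hP σ (h σ)

/-- a pair deciding about the homomorphisms decides about the Tate conjecture -/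
theorem decides_of {α β : GK F}
    (h : ∀ φ, M.Commutes X Y p φ α ∧ M.Commutes X Y p φ β ↔ M.PotentialHom X Y p φ) :
    M.Decides X Y p α β := by
  refine ⟨h, ?_, ?_⟩
  · intro hT φ h1 h2
    obtain ⟨L, hL, hLφ⟩ := (h φ).1 ⟨h1, h2⟩
    exact Submodule.span_mono (Set.image_subset_range _ _) (hT L hL φ hLφ)
  · intro hA L hL φ hLφ
    obtain ⟨h1, h2⟩ := (h φ).2 ⟨L, hL, hLφ⟩
    exact descent M X Y p (hA φ h1 h2) L hLφ

theorem tate_of {α β : GK F} (hα : M.ActsTrivially X p α) (hα' : M.ActsTrivially Y p α)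
    (hβ : M.ActsTrivially X p β) (hβ' : M.ActsTrivially Y p β)
    (hA : ∀ φ, M.Commutes X Y p φ α → M.Commutes X Y p φ β → M.Algebraic X Y p φ) :
    M.Tate X Y p := by
  intro L hL φ hLφ
  exact descent M X Y p (hA φ (commutes_of_potential M X Y p ⟨L, hL, hLφ⟩ hα hα')
    (commutes_of_potential M X Y p ⟨L, hL, hLφ⟩ hβ hβ')) L hLφ

/-- if two small elements act semisimply and only commute with algebraic maps, then the realization
is semisimple -/
theorem semisimple_of_pair {α β : GK F} (hα : M.ActsTrivially X p α) (hβ : M.ActsTrivially X p β)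
    (hss : ActSemisimply {rat (M.ρ X p α), rat (M.ρ X p β)})
    (h : ∀ φ, M.Commutes X X p φ α → M.Commutes X X p φ β → M.Algebraic X X p φ) :
    M.Semisimple X p := by
  have h1 : ∀ σ, M.ActsTrivially X p σ →
      Pool.Agent.H850.TF.rat (M.ρ X p) σ ∈ Algebra.adjoin ℚ_[p] {Pool.Agent.H850.TF.rat (M.ρ X p) α, Pool.Agent.H850.TF.rat (M.ρ X p) β} := by
    intro σ hσ
    refine double_centralizer (K := ℚ_[p]) hss fun A hA => ?_
    have h3 := hA _ (Set.mem_insert (Pool.Agent.H850.TF.rat (M.ρ X p) α) {Pool.Agent.H850.TF.rat (M.ρ X p) β})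
    have h4 := hA _ (Set.mem_insert_of_mem (Pool.Agent.H850.TF.rat (M.ρ X p) α)
      (Set.mem_singleton (Pool.Agent.H850.TF.rat (M.ρ X p) β)))
    have h2 : M.Algebraic X X p A := h A h3.eq.symm h4.eq.symm
    have h5 : A * Pool.Agent.H850.TF.rat (M.ρ X p) σ = Pool.Agent.H850.TF.rat (M.ρ X p) σ * A :=
      potential_of_algebraic M X X p h2 hσ hσ
    exact h5
  have h2 : CR (Pool.Agent.H850.TF.rat (M.ρ X p) '' (U1 (M.ρ X p) : Set (GK F))) := by
    intro W hW
    obtain ⟨W', hW', hc⟩ := hss W (by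
      intro A hA
      rcases hA with rfl | hA
      · exact hW _ ⟨α, hα, rfl⟩
      · rw [Set.mem_singleton_iff] at hA
        rw [hA]
        exact hW _ ⟨β, hβ, rfl⟩)
    refine ⟨W', ?_, hc⟩
    rintro _ ⟨σ, hσ, rfl⟩
    exact stable_adjoin hW' _ (h1 σ hσ)
  have hfin : Finite (GK F ⧸ U1 (M.ρ X p)) :=
    Subgroup.quotient_finite_of_isOpen _ (isOpen_U1 (M.ρ X p) (M.cont X p))
  have hidx : (U1 (M.ρ X p)).FiniteIndex := Subgroup.finiteIndex_of_finite_quotient
  exact CR_of_finiteIndex (Pool.Agent.H850.TF.rat (M.ρ X p)) (U1 (M.ρ X p)) h2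

/-- two small elements whose commutant is the commutant of all small elements act semisimply -/
theorem pair_semisimple (hM : M.Semisimple X p) {α β : GK F} (hα : M.ActsTrivially X p α)
    (hβ : M.ActsTrivially X p β) (h : ∀ σ, M.ActsTrivially X p σ →
      Pool.Agent.H850.TF.rat (M.ρ X p) σ ∈ Algebra.adjoin ℚ_[p] {Pool.Agent.H850.TF.rat (M.ρ X p) α, Pool.Agent.H850.TF.rat (M.ρ X p) β}) :
    ActSemisimply {rat (M.ρ X p α), rat (M.ρ X p β)} := by
  intro W hW
  obtain ⟨W', hW', hc⟩ := clifford (Pool.Agent.H850.TF.rat (M.ρ X p)) (U1 (M.ρ X p)) hM W (by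
    rintro _ ⟨σ, hσ, rfl⟩
    exact stable_adjoin hW _ (h σ hσ))
  refine ⟨W', ?_, hc⟩
  intro A hA
  rcases hA with rfl | hA
  · exact hW' _ ⟨α, hα, rfl⟩
  · rw [Set.mem_singleton_iff] at hA
    rw [hA]
    exact hW' _ ⟨β, hβ, rfl⟩

/-- a set of primes of positive density is nonempty -/
theorem exists_of_dens {P : HeightOneSpectrum (𝓞 F) → Prop} {δ : ℝ} (hδ : 0 < δ)
    (h : Tendsto (dens P) atTop (𝓝 δ)) : ∃ v, P v := by
  by_contra hne
  push Not at hne
  have h1 : dens P = fun _ => 0 := by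
    funext n
    unfold dens
    have : IsEmpty {v : HeightOneSpectrum (𝓞 F) // Ideal.absNorm v.asIdeal ≤ n ∧ P v} :=
      ⟨fun v => hne v.1 v.2.2⟩
    rw [Nat.card_of_isEmpty]
    simp
  rw [h1] at h
  exact hδ.ne' (tendsto_nhds_unique h tendsto_const_nhds)

theorem comm_of_forall {α : GK F} (h : ∀ φ, M.Commutes X X p φ α → M.PotentialHom X X p φ) :
    ∃ L : IntermediateField F (AlgebraicClosure F), FiniteDimensional F L ∧
      ∀ τ ∈ L.fixingSubgroup, ∀ τ' ∈ L.fixingSubgroup,
        Commute (rat (M.ρ X p τ)) (rat (M.ρ X p τ')) := by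
  obtain ⟨L, hL, hLt⟩ := exists_field (isOpen_U1 (M.ρ X p) (M.cont X p))
  refine ⟨L, hL, fun τ hτ τ' hτ' => ?_⟩
  have h1 : M.Commutes X X p (rat (M.ρ X p α)) τ' :=
    commutes_of_potential M X X p (h _ rfl) (hLt hτ') (hLt hτ')
  have h2 : M.Commutes X X p (rat (M.ρ X p τ')) α := by
    have h3 : rat (M.ρ X p α) * rat (M.ρ X p τ') = rat (M.ρ X p τ') * rat (M.ρ X p α) := h1
    exact h3.symm
  have h4 : rat (M.ρ X p τ') * rat (M.ρ X p τ) = rat (M.ρ X p τ) * rat (M.ρ X p τ') :=
    commutes_of_potential M X X p (h _ h2) (hLt hτ) (hLt hτ)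
  exact h4.symm

variable [MeasurableSpace (GK F)] [BorelSpace (GK F)] (μ : Measure (GK F)) [μ.IsHaarMeasure]
  [μ.OuterRegular]

omit [μ.OuterRegular] in
/-- a regular semisimple element and almost every conjugate decide -/
theorem decides_ae (hX : M.Semisimple X p) (hY : M.Semisimple Y p) (hc : M.Connected X Y p)
    {α : GK F} (hs : CR {Pool.Agent.H850.TF.rat (dsm (M.ρ X p) (M.ρ Y p)) α})
    (hmax : ∀ m : ℕ, m ≠ 0 → ∀ g, rk (Pool.Agent.H850.TF.rat (dsm (M.ρ X p) (M.ρ Y p)) g) ≤
      rk (Pool.Agent.H850.TF.rat (dsm (M.ρ X p) (M.ρ Y p)) (α ^ m))) :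
    ∀ᵐ γ ∂μ, ∀ k : ℕ, k ≠ 0 → M.Decides X Y p (α ^ k) ((γ * α * γ⁻¹) ^ k) := by
  have hconn := (connected_iff M X Y p).1 hc
  filter_upwards [hom_conj_regular μ (M.cont X p) (M.cont Y p) hX hY (hconn α) hs
    fun m hm g _ => hmax m hm g] with γ hγ k hk
  refine decides_of M X Y p fun φ => ?_
  rw [conj_pow]
  constructor
  · rintro ⟨h1, h2⟩
    refine ⟨⊥, inferInstance, fun τ _ => ?_⟩
    exact hγ (hconn γ) k hk φ h1 h2 τ (hconn τ)
  · rintro ⟨L, hL, hLφ⟩
    have h3 := off_of_open (M.ρ X p) (M.ρ Y p) φ L.fixingSubgroup_isOpen hLφ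
    exact ⟨h3 _ (hconn _), h3 _ (hconn _)⟩

omit [μ.OuterRegular] in
/-- the same for endomorphisms, with the representation itself -/
theorem decides_ae_self (hX : M.Semisimple X p) (hc : M.Connected X X p)
    {α : GK F} (hs : CR {Pool.Agent.H850.TF.rat (M.ρ X p) α})
    (hmax : ∀ m : ℕ, m ≠ 0 → ∀ g, rk (Pool.Agent.H850.TF.rat (M.ρ X p) g) ≤
      rk (Pool.Agent.H850.TF.rat (M.ρ X p) (α ^ m))) :
    ∀ᵐ γ ∂μ, ∀ k : ℕ, k ≠ 0 → M.Decides X X p (α ^ k) ((γ * α * γ⁻¹) ^ k) := by
  have hconn := (connected_iff M X X p).1 hc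
  have hconn' : ∀ σ, σ ∈ conn (M.ρ X p) := fun σ => conn_dsm_le _ _ (hconn σ)
  filter_upwards [(connOn_conn (M.ρ X p)).conj_regular μ (M.cont X p) (isOpen_conn (M.ρ X p)) hX
    (hconn' α) hs fun m hm g _ => hmax m hm g] with γ hγ k hk
  refine decides_of M X X p fun φ => ?_
  rw [conj_pow]
  constructor
  · rintro ⟨h1, h2⟩
    refine ⟨⊥, inferInstance, fun τ _ => ?_⟩
    have h3 : Commute (Pool.Agent.H850.TF.rat (M.ρ X p) τ) φ := by
      refine commute_of_adjoin ?_ (hγ (hconn' γ) k hk τ (hconn' τ))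
      rintro A (rfl | hA)
      · exact h1.symm
      · rw [Set.mem_singleton_iff] at hA
        rw [hA]
        exact h2.symm
    exact h3.eq.symm
  · rintro ⟨L, hL, hLφ⟩
    have h3 := off_of_open (M.ρ X p) (M.ρ X p) φ L.fixingSubgroup_isOpen hLφ
    exact ⟨h3 _ (hconn _), h3 _ (hconn _)⟩

theorem blk_charpoly {N N' : ℕ} {K : Type} [Field K] (A : Matrix (Fin N) (Fin N) K)
    (B : Matrix (Fin N') (Fin N') K) : (blk A B).charpoly = A.charpoly * B.charpoly := by
  have h1 : blk A B = Matrix.reindex finSumFinEquiv finSumFinEquiv (Matrix.fromBlocks A 0 0 B) := rfl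
  rw [h1, Matrix.charpoly_reindex, Matrix.charpoly_fromBlocks_zero₁₂]

include μ in
/-- connectedness at one prime implies connectedness at all primes -/
theorem connected_all (hco : M.ConnectedOnce X Y) (hX : M.Semisimple X p)
    (hY : M.Semisimple Y p) : M.Connected X Y p := by
  obtain ⟨q, hq, hXq, hYq, hcq⟩ := hco
  rw [connected_iff]
  exact Pool.Agent.H850.LA.conn_of_conn (fun ℓ _ => dsm (M.ρ X ℓ) (M.ρ Y ℓ)) μ
    ((M.bad_finite X).union (M.bad_finite Y)) (fun v => M.frob X v * M.frob Y v)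
    (fun ℓ _ => continuous_dsm (M.cont X ℓ) (M.cont Y ℓ)) (by
      intro ℓ hℓ v hv hvℓ σ hσ
      have h2 := M.unramified X ℓ v (fun h => hv (Or.inl h)) hvℓ σ hσ
      have h3 := M.unramified Y ℓ v (fun h => hv (Or.inr h)) hvℓ σ hσ
      apply Units.ext
      rw [dsm_val, h2, h3, Units.val_one, Units.val_one, blk_one, Units.val_one]) (by
      intro ℓ hℓ v hv hvℓ σ hσ
      have h2 := M.charpoly X ℓ v (fun h => hv (Or.inl h)) hvℓ σ hσ
      have h3 := M.charpoly Y ℓ v (fun h => hv (Or.inr h)) hvℓ σ hσ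
      rw [rat_dsm, blk_charpoly, Polynomial.map_mul]
      exact congrArg₂ (· * ·) h2 h3) q (CR_dsm hXq hYq) ((connected_iff M X Y q).1 hcq) p
    (CR_dsm hX hY)

/-- all primes at once -/
theorem all_primes {v : HeightOneSpectrum (𝓞 F)} {α : GK F} (hα : IsFrob v α)
    (h : ∀ (p : ℕ) [Fact p.Prime], (p : 𝓞 F) ∉ v.asIdeal → M.Semisimple X p → M.Semisimple Y p →
      M.Connected X Y p → ∀ᵐ γ ∂μ, ∀ k : ℕ, k ≠ 0 → M.Decides X Y p (α ^ k) ((γ * α * γ⁻¹) ^ k)) :
    ∀ᵐ γ ∂μ, IsFrob v (γ * α * γ⁻¹) ∧ M.DecidesAll X Y v α (γ * α * γ⁻¹) := by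
  have h1 : ∀ p : ℕ, ∀ᵐ γ ∂μ, ∀ (_ : Fact p.Prime), (p : 𝓞 F) ∉ v.asIdeal → M.Semisimple X p →
      M.Semisimple Y p → M.Connected X Y p → ∀ k : ℕ, k ≠ 0 →
        M.Decides X Y p (α ^ k) ((γ * α * γ⁻¹) ^ k) := by
    intro p
    by_cases hp : p.Prime
    · have hfact : Fact p.Prime := ⟨hp⟩
      by_cases hcond : (p : 𝓞 F) ∉ v.asIdeal ∧ M.Semisimple X p ∧ M.Semisimple Y p ∧
          M.Connected X Y p
      · filter_upwards [h p hcond.1 hcond.2.1 hcond.2.2.1 hcond.2.2.2] with γ hγ _ _ _ _ _ k hk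
        exact hγ k hk
      · refine Filter.Eventually.of_forall fun γ _ h2 h3 h4 h5 => ?_
        exact (hcond ⟨h2, h3, h4, h5⟩).elim
    · exact Filter.Eventually.of_forall fun γ h2 => (hp h2.out).elim
  filter_upwards [ae_all_iff.2 h1] with γ hγ
  exact ⟨isFrob_conj hα γ, fun hco p hp h2 h3 h4 k hk =>
    hγ p hp h2 h3 h4 (connected_all M X Y p μ hco h3 h4) k hk⟩

/-- a place is good for the pair at all primes -/
def Good (v : HeightOneSpectrum (𝓞 F)) : Prop :=
  ∀ α, IsFrob v α → ∀ᵐ γ ∂μ, IsFrob v (γ * α * γ⁻¹) ∧ M.DecidesAll X Y v α (γ * α * γ⁻¹)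

/-- density one -/
theorem bad_null : Tendsto (dens fun v : HeightOneSpectrum (𝓞 F) => ¬ Good M X Y μ v) atTop
    (𝓝 0) := by
  have h1 := compat_regular (fun ℓ _ => dsm (M.ρ X ℓ) (M.ρ Y ℓ)) μ
    ((M.bad_finite X).union (M.bad_finite Y)) (fun v => M.frob X v * M.frob Y v)
    (fun ℓ _ => continuous_dsm (M.cont X ℓ) (M.cont Y ℓ)) (by
      intro ℓ hℓ v hv hvℓ σ hσ
      have h2 := M.unramified X ℓ v (fun h => hv (Or.inl h)) hvℓ σ hσ
      have h3 := M.unramified Y ℓ v (fun h => hv (Or.inr h)) hvℓ σ hσ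
      apply Units.ext
      rw [dsm_val, h2, h3, Units.val_one, Units.val_one, blk_one, Units.val_one]) (by
      intro ℓ hℓ v hv hvℓ σ hσ
      have h2 := M.charpoly X ℓ v (fun h => hv (Or.inl h)) hvℓ σ hσ
      have h3 := M.charpoly Y ℓ v (fun h => hv (Or.inr h)) hvℓ σ hσ
      rw [rat_dsm, blk_charpoly, Polynomial.map_mul]
      exact congrArg₂ (· * ·) h2 h3)
  refine squeeze_zero (fun N => dens_nonneg _ N) (fun N => dens_mono (fun v hv => ?_) N) h1
  intro hgood
  apply hv
  intro α hα
  refine all_primes M X Y μ hα fun p _ hvp hX hY hc => ?_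
  have h2 := hgood p hvp (CR_dsm hX hY) ((connected_iff M X Y p).1 hc) α hα
  exact decides_ae M X Y p μ hX hY hc h2.1 h2.2

/-- the explicit criterion -/
theorem explicit {v : HeightOneSpectrum (𝓞 F)} (hv : v ∉ M.bad X) (hreg : Regular (M.frob X v)) :
    Good M X X μ v := by
  intro α hα
  refine all_primes M X X μ hα fun p _ hvp hX _ hc => ?_
  have h2 := regular_of_poly (M.ρ X) μ (M.bad_finite X) (M.frob X) (fun ℓ _ => M.cont X ℓ)
    (fun ℓ _ v hv hvℓ σ hσ => M.unramified X ℓ v hv hvℓ σ hσ)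
    (fun ℓ _ v hv hvℓ σ hσ => M.charpoly X ℓ v hv hvℓ σ hσ) hv hreg p hvp hX
    (fun σ => conn_dsm_le _ _ ((connected_iff M X X p).1 hc σ)) hα
  exact decides_ae_self M X p μ hX hc h2.1 h2.2

/-- one set of primes for all pairs -/
theorem universal : ∃ P : HeightOneSpectrum (𝓞 F) → Prop, Tendsto (dens P) atTop (𝓝 1) ∧
    ∀ X Y : M.Obj, {v | P v ∧ ¬ Good M X Y μ v}.Finite := by
  classical
  have hcount := M.countable
  let I := M.Obj × M.Obj
  have hI : Countable I := inferInstance
  letI : Encodable I := Encodable.ofCountable I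
  have hfalse : Tendsto (dens fun _ : HeightOneSpectrum (𝓞 F) => False) atTop (𝓝 0) := by
    have h1 : (dens fun _ : HeightOneSpectrum (𝓞 F) => False) = fun _ => 0 := by
      funext n
      unfold dens
      have : IsEmpty {v : HeightOneSpectrum (𝓞 F) //
          Ideal.absNorm v.asIdeal ≤ n ∧ False} := ⟨fun v => v.2.2⟩
      rw [Nat.card_of_isEmpty]
      simp
    rw [h1]
    exact tendsto_const_nhds
  obtain ⟨B, hB, hBf⟩ := exists_pseudo
    (fun n v => ∃ i : I, (Encodable.encode i = n) ∧ ¬ Good M i.1 i.2 μ v) (by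
      intro n
      by_cases h : ∃ i : I, Encodable.encode i = n
      · obtain ⟨i, rfl⟩ := h
        have h1 : (fun v => ∃ j : I, (Encodable.encode j = Encodable.encode i) ∧
            ¬ Good M j.1 j.2 μ v) = fun v => ¬ Good M i.1 i.2 μ v := by
          funext v
          apply propext
          constructor
          · rintro ⟨j, hj, h2⟩
            rwa [Encodable.encode_injective hj] at h2
          · intro h2
            exact ⟨i, rfl, h2⟩
        rw [h1]
        exact bad_null M i.1 i.2 μ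
      · have h1 : (fun v => ∃ j : I, (Encodable.encode j = n) ∧ ¬ Good M j.1 j.2 μ v) =
            fun _ => False := by
          funext v
          exact propext ⟨fun ⟨j, hj, _⟩ => h ⟨j, hj⟩, fun h2 => h2.elim⟩
        rw [h1]
        exact hfalse)
  refine ⟨fun v => ¬ B v, dens_compl hB, ?_⟩
  intro X Y
  refine (hBf (Encodable.encode ((X, Y) : I))).subset ?_
  rintro v ⟨hv, hg⟩
  exact ⟨⟨(X, Y), rfl, hg⟩, hv⟩

end Proofs

/-- **One place decides the Tate conjecture for all primes.** Let `M` be the pure motives over the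
number field `F`.
(1) There is one set `P` of places of `F` of density one such that for all motives `X`, `Y` all but
finitely many places `v` in `P` have the following property: for every Frobenius element `α` at `v`
and almost all `γ` in the absolute Galois group of `F`, the powers `α ^ k` and `(γ α γ⁻¹) ^ k` of two
Frobenius elements at `v` decide about `(X, Y)`, for all `k ≥ 1` and for ALL primes `p` prime to `v`
for which the realizations are semisimple, if the monodromy group of the pair is connected over `F`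
at ONE prime.
(2) For `(X, X)` this holds at every good place `v` of `X` at which the roots of the Frobenius
polynomial are distinct and no quotient of two different roots is a root of unity.
(3) The realization of `X` at `p` is semisimple and the Tate conjecture for `Hom(X, X)` holds at `p`
over all finite extensions of `F` if and only if there are two Frobenius elements at one place whose
`k`-th powers for some `k` act trivially modulo `p ^ 2`, act semisimply, and commute with algebraic
maps only.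
(4) One Frobenius element is not enough: if every endomorphism of `X_p` commuting with one Galois
element is an endomorphism of representations over a finite extension, then the representation
is potentially abelian. -/
theorem result [MeasurableSpace (GK F)] [BorelSpace (GK F)]
    (μ : Measure (GK F)) [μ.IsHaarMeasure] [μ.OuterRegular] (M : Motives F) :
    (∃ P : HeightOneSpectrum (𝓞 F) → Prop, Tendsto (dens P) atTop (𝓝 1) ∧
      ∀ X Y : M.Obj, ∃ S : Set (HeightOneSpectrum (𝓞 F)), S.Finite ∧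
        ∀ v, P v → v ∉ S → ∀ α, IsFrob v α → ∀ᵐ γ ∂μ,
          IsFrob v (γ * α * γ⁻¹) ∧ M.DecidesAll X Y v α (γ * α * γ⁻¹)) ∧
    (∀ (X : M.Obj) (v : HeightOneSpectrum (𝓞 F)), v ∉ M.bad X → Regular (M.frob X v) →
      ∀ α, IsFrob v α → ∀ᵐ γ ∂μ,
        IsFrob v (γ * α * γ⁻¹) ∧ M.DecidesAll X X v α (γ * α * γ⁻¹)) ∧
    (∀ (X : M.Obj) (p : ℕ) [Fact p.Prime],
      (M.Semisimple X p ∧ M.Tate X X p) ↔ ∃ v α β, IsFrob v α ∧ IsFrob v β ∧ ∃ k : ℕ,
        M.ActsTrivially X p (α ^ k) ∧ M.ActsTrivially X p (β ^ k) ∧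
        ActSemisimply {rat (M.ρ X p (α ^ k)), rat (M.ρ X p (β ^ k))} ∧
        ∀ φ, M.Commutes X X p φ (α ^ k) → M.Commutes X X p φ (β ^ k) →
          M.Algebraic X X p φ) ∧
    (∀ (X : M.Obj) (p : ℕ) [Fact p.Prime] (α : GK F),
      (∀ φ, M.Commutes X X p φ α → M.PotentialHom X X p φ) →
        ∃ L : IntermediateField F (AlgebraicClosure F), FiniteDimensional F L ∧
          ∀ τ ∈ L.fixingSubgroup, ∀ τ' ∈ L.fixingSubgroup,
            Commute (rat (M.ρ X p τ)) (rat (M.ρ X p τ'))) := by
  refine ⟨?_, fun X v hv hreg α hα => explicit M X μ hv hreg α hα, ?_,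
    fun X p _ α h => comm_of_forall M X p h⟩
  · obtain ⟨P, hP, h⟩ := universal M μ
    refine ⟨P, hP, fun X Y => ⟨_, h X Y, fun v hv hvS => ?_⟩⟩
    by_contra hg
    exact hvS ⟨hv, hg⟩
  · intro X p hp
    constructor
    · rintro ⟨hX, hT⟩
      obtain ⟨V, σ₀, η, hVn, hVo, h1, h2⟩ :=
        Pool.Agent.H850.RG.conj_coset (M.cont X p) hX
      obtain ⟨δ, hδ, hlim⟩ := Pool.Agent.H850.TF.coset_density V hVo σ₀
      obtain ⟨v, u, hu, hv⟩ := exists_of_dens hδ hlim
      have h3 : M.ActsTrivially X p (σ₀ * u) := h1 u hu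
      have h4 : M.ActsTrivially X p (η * (σ₀ * u) * η⁻¹) :=
        (inferInstance : (Pool.Agent.H850.TF.U1 (M.ρ X p)).Normal).conj_mem _ h3 η
      refine ⟨v, σ₀ * u, η * (σ₀ * u) * η⁻¹, hv, Pool.Agent.H850.TF.isFrob_conj hv η, 1, ?_⟩
      rw [pow_one, pow_one]
      refine ⟨h3, h4, pair_semisimple M X p hX h3 h4 (h2 u hu), ?_⟩
      intro φ h5 h6
      obtain ⟨L, hL, hLt⟩ := exists_field
        (Pool.Agent.H850.TF.isOpen_U1 (M.ρ X p) (M.cont X p))
      have h7 : M.HomOver X X p L φ := by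
        intro σ hσ
        have h8 : Commute (Pool.Agent.H850.TF.rat (M.ρ X p) σ) φ := by
          refine Pool.Agent.H850.TF.commute_of_adjoin ?_ (h2 u hu σ (hLt hσ))
          rintro A (rfl | hA)
          · exact h5.symm
          · rw [Set.mem_singleton_iff] at hA
            rw [hA]
            exact h6.symm
        exact h8.eq.symm
      exact Submodule.span_mono (Set.image_subset_range _ _) (hT L hL φ h7)
    · rintro ⟨v, α, β, -, -, k, h1, h2, h3, h4⟩
      exact ⟨semisimple_of_pair M X p h1 h2 h3 h4, tate_of M X X p h1 h1 h2 h2 h4⟩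

end Pool.Agent.Results.MP_3703a7_ag.OnePlace
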